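import Mathlib

/-!
# Definitions: complexity of orbits, and two classes of systems
-/

namespace Pool.Agent.PrimeComplexity

/-- `s` is an `(n, ε)`-spanning set for the orbit of `x` under `T`: every point `T^m x`, `m ≥ 0`, of
the orbit has a point `z` of `s` with `d(T^j (T^m x), T^j z) < ε` for all `0 ≤ j < n`. -/
def SpansOrbit {X : Type} [MetricSpace X] (T : X → X) (x : X) (n : ℕ) (ε : ℝ) (s : Finset X) :
    Prop :=
  ∀ m : ℕ, ∃ z ∈ s, ∀ j : ℕ, j < n → dist (T^[j] (T^[m] x)) (T^[j] z) < ε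

/-- The orbit of `x` has complexity `2^(o(√n))`: for all `ε, c > 0` and all large `n` it has an
`(n, ε)`-spanning set with at most `2^(c √n)` points. -/
def LowComplexity {X : Type} [MetricSpace X] (T : X → X) (x : X) : Prop :=
  ∀ ε : ℝ, 0 < ε → ∀ c : ℝ, 0 < c → ∃ n₀ : ℕ, ∀ n : ℕ, n₀ ≤ n →
    ∃ s : Finset X, SpansOrbit T x n ε s ∧ (s.card : ℝ) ≤ 2 ^ (c * √(n : ℝ))

/-- Finite upper box dimension: for some `C` and `D > 0` the space is covered by `C ρ^(-D)` closed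
balls of radius `ρ`, for every `0 < ρ ≤ 1`. -/
def FiniteBoxDim (X : Type) [MetricSpace X] : Prop :=
  ∃ C D : ℝ, 0 < D ∧ ∀ ρ : ℝ, 0 < ρ → ρ ≤ 1 →
    ∃ s : Finset X, (∀ y, ∃ z ∈ s, dist y z ≤ ρ) ∧ (s.card : ℝ) ≤ C * ρ ^ (-D)

/-- For some `β > 0` the map `T^n` is `β`-Hölder with constant `2^(o(√n))`. -/
def SlowGrowth {X : Type} [MetricSpace X] (T : X → X) : Prop :=
  ∃ β : ℝ, 0 < β ∧ ∀ c : ℝ, 0 < c → ∃ C : ℝ, ∀ (n : ℕ) (y z : X),
    dist (T^[n] y) (T^[n] z) ≤ C * 2 ^ (c * √(n : ℝ)) * dist y z ^ β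

/-- The extension `(z, y) ↦ (S z, h(z) y)` of `S` by the maps `h(z) : Y → Y`. -/
def fibreExt {Z Y : Type} (S : Z → Z) (h : Z → Y → Y) (w : Z × Y) : Z × Y :=
  (S w.1, h w.1 w.2)

/-- All maps `h(z)` are nonexpansive (for instance isometries). -/
def Nonexpansive {Z Y : Type} [MetricSpace Y] (h : Z → Y → Y) : Prop :=
  ∀ (z : Z) (y y' : Y), dist (h z y) (h z y') ≤ dist y y'

/-- The modulus of continuity of `z ↦ h(z)` is `o(1 / log)`, uniformly on `Y`. -/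
def LogModulus {Z Y : Type} [MetricSpace Z] [MetricSpace Y] (h : Z → Y → Y) : Prop :=
  ∀ κ : ℝ, 0 < κ → ∃ r : ℝ, 0 < r ∧ ∀ u v : Z, u ≠ v → dist u v < r →
    ∀ y : Y, dist (h u y) (h v y) * |Real.log (dist u v)| ≤ κ

end Pool.Agent.PrimeComplexity
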