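import Mathlib
import Pool.Agent.Lib_MP_ff27c1_cb.Defs

/-!
# A sign sequence on the primes which is orthogonal to all systems of small complexity
-/

open Finset Filter Topology

namespace Pool.Agent.PrimeComplexity

/-- The primes up to `N`. -/
def P (N : ℕ) : Finset ℕ := (Finset.range (N + 1)).filter Nat.Prime

lemma card_P (N : ℕ) : (P N).card = Nat.primeCounting N := by
  rw [Nat.primeCounting, Nat.primeCounting', Nat.count_eq_card_filter_range, P]

/-- The sign with name `v`. -/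
def sg (v : Bool) : ℝ := if v then 1 else -1

/-- Extension of a finite sequence by `false`. -/
def ext {M : ℕ} (b : Fin M → Bool) (p : ℕ) : Bool := if h : p < M then b ⟨p, h⟩ else false

/-! ## The exponential moment bound -/

lemma count_le {M : ℕ} (Q : Finset ℕ) (hQ : Q ⊆ Finset.range M) (a : ℕ → ℝ)
    (ha : ∀ p, |a p| ≤ 1) (t : ℝ) (ht : 0 ≤ t) :
    (((Finset.univ : Finset (Fin M → Bool)).filter
      (fun b => t * Q.card < ∑ p ∈ Q, sg (ext b p) * a p)).card : ℝ) ≤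
      2 ^ M * Real.exp (-(t ^ 2 * Q.card / 2)) := by
  classical
  let G : ℕ → Bool → ℝ := fun p v => if p ∈ Q then Real.exp (t * (sg v * a p)) else 1
  have hG0 : ∀ p v, 0 ≤ G p v := by
    intro p v
    show 0 ≤ (if p ∈ Q then Real.exp (t * (sg v * a p)) else 1)
    split_ifs
    · exact (Real.exp_pos _).le
    · exact zero_le_one
  have h1 : ∀ b : Fin M → Bool, Real.exp (t * ∑ p ∈ Q, sg (ext b p) * a p) =
      ∏ i : Fin M, G i (b i) := by
    intro b
    rw [Finset.mul_sum, Real.exp_sum]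
    have h2 : ∏ i : Fin M, G i (b i) = ∏ i : Fin M, (fun p : ℕ => G p (ext b p)) i := by
      refine Finset.prod_congr rfl fun i _ => ?_
      simp [ext]
    rw [h2, ← Finset.prod_range (fun p => G p (ext b p)),
      ← Finset.prod_subset hQ (f := fun p => G p (ext b p)) (fun p _ hp => by simp [G, hp])]
    refine Finset.prod_congr rfl fun p hp => ?_
    simp [G, hp]
  have h3 : ∑ b : Fin M → Bool, ∏ i : Fin M, G i (b i) = ∏ i : Fin M, ∑ v : Bool, G i v := by
    rw [Finset.prod_univ_sum, Fintype.piFinset_univ]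
  have h4 : ∀ i : Fin M, ∑ v : Bool, G i v ≤
      2 * (if (i : ℕ) ∈ Q then Real.exp (t ^ 2 / 2) else 1) := by
    intro i
    by_cases hi : (i : ℕ) ∈ Q
    · have h5 := Real.cosh_le_exp_half_sq (t * a i)
      rw [Real.cosh_eq] at h5
      have h6 : Real.exp ((t * a i) ^ 2 / 2) ≤ Real.exp (t ^ 2 / 2) := by
        apply Real.exp_le_exp.2
        have h7 : (a i) ^ 2 ≤ 1 := by
          rw [← sq_abs]
          exact pow_le_one₀ (abs_nonneg _) (ha i)
        nlinarith [sq_nonneg t, mul_le_mul_of_nonneg_left h7 (sq_nonneg t)]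
      have e0 : ∑ v : Bool, G i v = Real.exp (t * a i) + Real.exp (-(t * a i)) := by
        simp [G, hi, sg]
      rw [e0, if_pos hi]
      linarith
    · have e0 : ∑ v : Bool, G i v = 2 := by
        simp [G, hi]
      rw [e0, if_neg hi]
      norm_num
  have h5 : ∏ i : Fin M, ∑ v : Bool, G i v ≤ 2 ^ M * (Real.exp (t ^ 2 / 2)) ^ Q.card := by
    calc ∏ i : Fin M, ∑ v : Bool, G i v
        ≤ ∏ i : Fin M, (2 * (if (i : ℕ) ∈ Q then Real.exp (t ^ 2 / 2) else 1)) :=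
          Finset.prod_le_prod (fun i _ => Finset.sum_nonneg fun v _ => hG0 _ _) (fun i _ => h4 i)
      _ = 2 ^ M * ∏ i : Fin M, (if (i : ℕ) ∈ Q then Real.exp (t ^ 2 / 2) else 1) := by
          rw [Finset.prod_mul_distrib, Finset.prod_const, Finset.card_univ, Fintype.card_fin]
      _ = _ := by
          rw [← Finset.prod_range (fun p => if p ∈ Q then Real.exp (t ^ 2 / 2) else 1),
            Finset.prod_ite_mem, Finset.inter_eq_right.2 hQ, Finset.prod_const]
  set S := (Finset.univ : Finset (Fin M → Bool)).filter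
      (fun b => t * Q.card < ∑ p ∈ Q, sg (ext b p) * a p) with hS
  have h6 : (S.card : ℝ) * Real.exp (t * (t * Q.card)) ≤
      ∑ b : Fin M → Bool, ∏ i : Fin M, G i (b i) := by
    calc (S.card : ℝ) * Real.exp (t * (t * Q.card))
        = ∑ b ∈ S, Real.exp (t * (t * Q.card)) := by rw [Finset.sum_const, nsmul_eq_mul]
      _ ≤ ∑ b ∈ S, ∏ i : Fin M, G i (b i) := by
          refine Finset.sum_le_sum fun b hb => ?_
          rw [← h1]
          apply Real.exp_le_exp.2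
          exact mul_le_mul_of_nonneg_left (Finset.mem_filter.1 hb).2.le ht
      _ ≤ _ := Finset.sum_le_univ_sum_of_nonneg fun b => Finset.prod_nonneg fun i _ => hG0 _ _
  rw [h3] at h6
  have h7 := h6.trans h5
  rw [← Real.exp_nat_mul] at h7
  have h8 : 2 ^ M * Real.exp (-(t ^ 2 * Q.card / 2)) * Real.exp (t * (t * Q.card)) =
      2 ^ M * Real.exp ((Q.card : ℝ) * (t ^ 2 / 2)) := by
    rw [mul_assoc, ← Real.exp_add]
    congr 2
    ring
  rw [← h8] at h7
  exact le_of_mul_le_mul_right h7 (Real.exp_pos _)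

/-! ## Codes -/

/-- The window length at scale `N`. -/
def wd (N : ℕ) : ℕ := Nat.log 2 N ^ 2

/-- The number of bits of a name. -/
def nb (j N : ℕ) : ℕ := (Nat.log 2 N + 1) / (64 * j ^ 2) + 1

/-- The codes. -/
abbrev Code (j N : ℕ) : Type :=
  (Fin (N / wd N + 1) → Fin (2 ^ nb j N)) ×
    (Fin (2 ^ nb j N) → Fin (wd N + 1) → Fin (2 * (16 * j) + 1))

lemma card_code (j N : ℕ) : Fintype.card (Code j N) =
    (2 ^ nb j N) ^ (N / wd N + 1) * ((2 * (16 * j) + 1) ^ (wd N + 1)) ^ 2 ^ nb j N := by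
  simp only [Fintype.card_prod, Fintype.card_fun, Fintype.card_fin]

/-- The value at `p` of the function with code `c`. -/
noncomputable def val {j N : ℕ} (c : Code j N) (p : ℕ) : ℝ :=
  (((c.2 (c.1 (Fin.ofNat _ (p / wd N))) (Fin.ofNat _ (p % wd N)) : Fin (2 * (16 * j) + 1)) : ℕ) -
    16 * (j : ℝ)) / (16 * j)

lemma abs_val_le {j N : ℕ} (hj : 1 ≤ j) (c : Code j N) (p : ℕ) : |val c p| ≤ 1 := by
  have hj' : (0 : ℝ) < 16 * j := by
    have : (1 : ℝ) ≤ j := by exact_mod_cast hj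
    linarith
  unfold val
  set v := c.2 (c.1 (Fin.ofNat _ (p / wd N))) (Fin.ofNat _ (p % wd N)) with hv
  have h1 : ((v : ℕ) : ℝ) ≤ 2 * (16 * j) := by
    have := Nat.le_of_lt_succ v.2
    exact_mod_cast this
  have h2 : (0 : ℝ) ≤ ((v : ℕ) : ℝ) := Nat.cast_nonneg _
  rw [abs_div, abs_of_pos hj', div_le_one hj', abs_le]
  constructor <;> linarith

/-- The sign sequence `b` has small correlation with all codes at scale `N`. -/
def Good (j N : ℕ) (b : ℕ → Bool) : Prop :=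
  ∀ c : Code j N, ∑ p ∈ P N, sg (b p) * val c p ≤ 1 / (4 * j) * (P N).card

lemma bad_card {j N M : ℕ} (hj : 1 ≤ j) (hM : N < M) [DecidablePred
    (fun b : Fin M → Bool => ¬ Good j N (ext b))] :
    (((Finset.univ : Finset (Fin M → Bool)).filter (fun b => ¬ Good j N (ext b))).card : ℝ) ≤
      Fintype.card (Code j N) * (2 ^ M * Real.exp (-((P N).card / (32 * (j : ℝ) ^ 2)))) := by
  classical
  have hj' : (0 : ℝ) < j := by exact_mod_cast hj
  have hsub : (Finset.univ : Finset (Fin M → Bool)).filter (fun b => ¬ Good j N (ext b)) ⊆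
      (Finset.univ : Finset (Code j N)).biUnion (fun c =>
        (Finset.univ : Finset (Fin M → Bool)).filter
          (fun b => 1 / (4 * (j : ℝ)) * (P N).card < ∑ p ∈ P N, sg (ext b p) * val c p)) := by
    intro b hb
    have h1 := (Finset.mem_filter.1 hb).2
    unfold Good at h1
    push Not at h1
    obtain ⟨c, hc⟩ := h1
    exact Finset.mem_biUnion.2 ⟨c, Finset.mem_univ _, Finset.mem_filter.2 ⟨Finset.mem_univ _, hc⟩⟩
  have h1 : (((Finset.univ : Finset (Fin M → Bool)).filter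
      (fun b => ¬ Good j N (ext b))).card : ℝ) ≤ ∑ c : Code j N,
        (((Finset.univ : Finset (Fin M → Bool)).filter
          (fun b => 1 / (4 * (j : ℝ)) * (P N).card < ∑ p ∈ P N, sg (ext b p) * val c p)).card : ℝ) := by
    have := (Finset.card_le_card hsub).trans Finset.card_biUnion_le
    exact_mod_cast this
  refine h1.trans ?_
  have hPM : P N ⊆ Finset.range M := by
    intro p hp
    have := Finset.mem_range.1 (Finset.mem_filter.1 hp).1
    exact Finset.mem_range.2 (by omega)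
  have h2 : ∀ c : Code j N, (((Finset.univ : Finset (Fin M → Bool)).filter
          (fun b => 1 / (4 * (j : ℝ)) * (P N).card < ∑ p ∈ P N, sg (ext b p) * val c p)).card : ℝ) ≤
        2 ^ M * Real.exp (-((P N).card / (32 * (j : ℝ) ^ 2))) := by
    intro c
    have h3 := count_le (P N) hPM (val c) (abs_val_le hj c) (1 / (4 * (j : ℝ))) (by positivity)
    have h4 : (1 / (4 * (j : ℝ))) ^ 2 * ((P N).card : ℝ) / 2 =
        (P N).card / (32 * (j : ℝ) ^ 2) := by
      field_simp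
      ring
    rw [h4] at h3
    exact h3
  calc _ ≤ ∑ c : Code j N, 2 ^ M * Real.exp (-((P N).card / (32 * (j : ℝ) ^ 2))) :=
        Finset.sum_le_sum fun c _ => h2 c
    _ = _ := by rw [Finset.sum_const, nsmul_eq_mul, Finset.card_univ]

/-! ## Asymptotics -/

lemma pi_lower {N : ℕ} (hN : 1 ≤ N) :
    (N : ℝ) ≤ (P N).card * (Nat.log 2 N + 1) + (Nat.log 2 N + 1) := by
  set k := Nat.log 2 N with hk
  have h1 := Chebyshev.psi_ge N
  have h2 := Chebyshev.psi_le_primeCounting_mul_log N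
  have hlog2 : (0 : ℝ) < Real.log 2 := Real.log_pos (by norm_num)
  have hNk : N < 2 ^ (k + 1) := Nat.lt_pow_succ_log_self (by norm_num) N
  have h3 : Real.log (N : ℝ) ≤ (k + 1) * Real.log 2 := by
    have : Real.log (N : ℝ) ≤ Real.log ((2 : ℝ) ^ (k + 1)) := by
      refine Real.log_le_log (by exact_mod_cast hN) ?_
      exact_mod_cast hNk.le
    rwa [Real.log_pow, Nat.cast_add, Nat.cast_one] at this
  have h5 : Real.log ((N : ℝ) + 1) ≤ (k + 1) * Real.log 2 := by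
    have : Real.log ((N : ℝ) + 1) ≤ Real.log ((2 : ℝ) ^ (k + 1)) := by
      refine Real.log_le_log (by positivity) ?_
      exact_mod_cast hNk
    rwa [Real.log_pow, Nat.cast_add, Nat.cast_one] at this
  rw [← card_P] at h2
  have h6 : (N : ℝ) * Real.log 2 ≤
      ((P N).card * ((k : ℝ) + 1) + ((k : ℝ) + 1)) * Real.log 2 := by
    have h7 := h1.trans h2
    have h8 : ((P N).card : ℝ) * Real.log N ≤ (P N).card * ((k + 1) * Real.log 2) :=
      mul_le_mul_of_nonneg_left h3 (Nat.cast_nonneg _)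
    nlinarith
  exact le_of_mul_le_mul_right h6 hlog2

lemma growth (C : ℕ) : ∃ K : ℕ, ∀ k : ℕ, K ≤ k → C * k ^ 3 * 2 ^ (k / 2) ≤ 2 ^ k := by
  have h1 := tendsto_pow_const_div_const_pow_of_one_lt 3 (one_lt_two : (1 : ℝ) < 2)
  have h2 : ∀ᶠ m : ℕ in atTop, (m : ℝ) ^ 3 / 2 ^ m < 1 / (27 * C + 1) :=
    (tendsto_order.1 h1).2 _ (by positivity)
  obtain ⟨m₀, hm₀⟩ := eventually_atTop.1 h2
  refine ⟨2 * m₀ + 2, fun k hk => ?_⟩
  set m := k / 2 with hm
  have h3 := hm₀ m (by omega)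
  rw [div_lt_div_iff₀ (by positivity) (by positivity), one_mul] at h3
  have h4 : m ^ 3 * (27 * C + 1) < 2 ^ m := by exact_mod_cast h3
  have h5 : k ≤ 3 * m := by omega
  have h6 : C * k ^ 3 ≤ 2 ^ m := by
    calc C * k ^ 3 ≤ C * (3 * m) ^ 3 := Nat.mul_le_mul_left _ (Nat.pow_le_pow_left h5 3)
      _ = m ^ 3 * (27 * C) := by ring
      _ ≤ m ^ 3 * (27 * C + 1) := Nat.mul_le_mul_left _ (by omega)
      _ ≤ 2 ^ m := h4.le
  calc C * k ^ 3 * 2 ^ m ≤ 2 ^ m * 2 ^ m := Nat.mul_le_mul_right _ h6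
    _ = 2 ^ (m + m) := (pow_add _ _ _).symm
    _ ≤ 2 ^ k := Nat.pow_le_pow_right (by norm_num) (by omega)

lemma asym_real {A k q n j E b l π' : ℝ} (hj1 : 1 ≤ j) (hA1 : 1 ≤ A) (hkr : 1000 * A ≤ k)
    (hE1 : 1 ≤ E) (hEn : (8192 * A * j + 1024 * A + 5) * k ^ 3 * E ≤ n)
    (hb : b ≤ (k + 1) / (64 * A) + 1) (hq0 : 0 ≤ q) (hqn : q * k ^ 2 ≤ n)
    (hpi : n ≤ π' * (k + 1) + (k + 1)) (hl2 : l ≤ 0.7) (hl20 : 0 ≤ l) :
    b * (q + 1) * l + (k ^ 2 + 1) * E * (32 * j) + (3 * k + 5) ≤ π' / (32 * A) := by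
  have hk1000 : 1000 ≤ k := by linarith
  have hA0 : 0 < A := by linarith
  have hk0 : 0 < k := by linarith
  rw [le_div_iff₀ (by positivity)]
  have hk1 : 0 < k + 1 := by linarith
  have h64 : 64 * A * b ≤ k + 1 + 64 * A := by
    have := mul_le_mul_of_nonneg_left hb (by positivity : (0 : ℝ) ≤ 64 * A)
    have h2 : 64 * A * ((k + 1) / (64 * A) + 1) = k + 1 + 64 * A := by
      field_simp
    rw [h2] at this
    exact this
  have hkk : (k + 1) * (k + 1 + 64 * A) ≤ 1.1 * k ^ 2 := by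
    have a1 : k + 1 ≤ 1.001 * k := by linarith
    have a2 : k + 1 + 64 * A ≤ 1.065 * k := by linarith
    have a3 : (k + 1) * (k + 1 + 64 * A) ≤ 1.001 * k * (1.065 * k) :=
      mul_le_mul a1 a2 (by positivity) (by positivity)
    nlinarith
  have t1 : (k + 1) * (64 * A * b) * ((q + 1) * l) ≤ 0.77 * (n + k ^ 2) := by
    have b1 : (k + 1) * (64 * A * b) ≤ 1.1 * k ^ 2 :=
      (mul_le_mul_of_nonneg_left h64 hk1.le).trans hkk
    have b2 : (q + 1) * l ≤ (q + 1) * 0.7 := mul_le_mul_of_nonneg_left hl2 (by linarith)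
    have b3 := mul_le_mul b1 b2 (by positivity) (by positivity)
    refine b3.trans ?_
    nlinarith
  have hk3 : 0 < k ^ 3 := by positivity
  have hkkk : k ^ 2 ≤ k ^ 3 := by
    have : k ^ 3 = k * k ^ 2 := by ring
    rw [this]
    nlinarith [sq_nonneg k]
  have hkE : k ^ 3 ≤ k ^ 3 * E := le_mul_of_one_le_right hk3.le hE1
  have t2 : (k + 1) * (64 * A) * ((k ^ 2 + 1) * E * (32 * j)) ≤ 8192 * A * j * (k ^ 3 * E) := by
    have c1 : (k + 1) * (k ^ 2 + 1) ≤ 4 * k ^ 3 := by nlinarith [sq_nonneg k]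
    have c2 : 0 ≤ 64 * A * (E * (32 * j)) := by positivity
    calc (k + 1) * (64 * A) * ((k ^ 2 + 1) * E * (32 * j))
        = (k + 1) * (k ^ 2 + 1) * (64 * A * (E * (32 * j))) := by ring
      _ ≤ 4 * k ^ 3 * (64 * A * (E * (32 * j))) := mul_le_mul_of_nonneg_right c1 c2
      _ = 8192 * A * j * (k ^ 3 * E) := by ring
  have t3 : (k + 1) * (64 * A) * (3 * k + 5) ≤ 1024 * A * (k ^ 3 * E) := by
    have c1 : (k + 1) * (3 * k + 5) ≤ 16 * k ^ 2 := by nlinarith
    calc (k + 1) * (64 * A) * (3 * k + 5) = 64 * A * ((k + 1) * (3 * k + 5)) := by ring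
      _ ≤ 64 * A * (16 * k ^ 2) := mul_le_mul_of_nonneg_left c1 (by positivity)
      _ = 1024 * A * k ^ 2 := by ring
      _ ≤ 1024 * A * (k ^ 3 * E) := mul_le_mul_of_nonneg_left (hkkk.trans hkE) (by positivity)
  have t4 : 2 * (k + 1) ≤ 4 * (k ^ 3 * E) := by
    have : k ≤ k ^ 2 := by nlinarith
    nlinarith
  have t5 : (8192 * A * j + 1024 * A + 5) * (k ^ 3 * E) ≤ n := by
    rw [← mul_assoc]
    exact hEn
  have hfin : (k + 1) * ((b * (q + 1) * l + (k ^ 2 + 1) * E * (32 * j) + (3 * k + 5)) * (64 * A)) ≤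
      (k + 1) * (2 * π') := by
    have d1 : (k + 1) * ((b * (q + 1) * l + (k ^ 2 + 1) * E * (32 * j) + (3 * k + 5)) * (64 * A)) =
        (k + 1) * (64 * A * b) * ((q + 1) * l) + (k + 1) * (64 * A) * ((k ^ 2 + 1) * E * (32 * j)) +
        (k + 1) * (64 * A) * (3 * k + 5) := by ring
    rw [d1]
    have hn0 : 0 ≤ n := by
      refine le_trans ?_ t5
      positivity
    nlinarith
  have := le_of_mul_le_mul_left hfin hk1
  linarith

lemma card_code_le {j N : ℕ} {k q E : ℝ} (hq : q = ((N / wd N : ℕ) : ℝ))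
    (hwd : (wd N : ℝ) = k ^ 2) (hEnb : (2 : ℝ) ^ nb j N ≤ E) :
    (Fintype.card (Code j N) : ℝ) ≤
      Real.exp (nb j N * (q + 1) * Real.log 2 + (k ^ 2 + 1) * E * (32 * j)) := by
  rw [card_code]
  push_cast
  rw [Real.exp_add]
  have h2e : Real.exp (Real.log 2) = 2 := Real.exp_log (by norm_num)
  have e1 : ((2 : ℝ) ^ nb j N) ^ (N / wd N + 1) = Real.exp (nb j N * (q + 1) * Real.log 2) := by
    rw [← pow_mul, ← h2e, ← Real.exp_nat_mul, h2e, hq]
    congr 1
    push_cast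
    ring
  have e2 : ((2 * (16 * (j : ℝ)) + 1) ^ (wd N + 1)) ^ 2 ^ nb j N ≤
      Real.exp ((k ^ 2 + 1) * E * (32 * j)) := by
    have e3 : 2 * (16 * (j : ℝ)) + 1 ≤ Real.exp (32 * j) := by
      have := Real.add_one_le_exp (32 * (j : ℝ))
      linarith
    calc ((2 * (16 * (j : ℝ)) + 1) ^ (wd N + 1)) ^ 2 ^ nb j N
        ≤ ((Real.exp (32 * j)) ^ (wd N + 1)) ^ 2 ^ nb j N :=
          pow_le_pow_left₀ (by positivity) (pow_le_pow_left₀ (by positivity) e3 _) _
      _ = Real.exp (((wd N + 1) * 2 ^ nb j N : ℕ) * (32 * j)) := by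
          rw [← pow_mul, ← Real.exp_nat_mul]
      _ ≤ _ := by
          apply Real.exp_le_exp.2
          push_cast
          rw [hwd]
          refine mul_le_mul_of_nonneg_right ?_ (by positivity)
          exact mul_le_mul_of_nonneg_left hEnb (by positivity)
  rw [e1]
  exact mul_le_mul_of_nonneg_left e2 (Real.exp_pos _).le

lemma rhs_le {k N : ℕ} (hNupp : N < 2 ^ (k + 1)) :
    Real.exp (-(3 * (k : ℝ) + 5)) ≤ 1 / (2 * ((N : ℝ) + 1) * ((N + 1) * (N + 2))) := by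
  rw [Real.exp_neg, ← one_div]
  apply one_div_le_one_div_of_le (by positivity)
  have g1 : (N : ℝ) + 1 ≤ 2 ^ (k + 1) := by exact_mod_cast hNupp
  have g2 : (N : ℝ) + 2 ≤ 2 ^ (k + 2) := by
    have : (1 : ℝ) ≤ 2 ^ (k + 1) := one_le_pow₀ (by norm_num)
    rw [pow_succ (2 : ℝ) (k + 1)]
    linarith
  have g3 : 2 * ((N : ℝ) + 1) * ((N + 1) * (N + 2)) ≤
      2 * 2 ^ (k + 1) * (2 ^ (k + 1) * 2 ^ (k + 2)) := by
    gcongr
  refine g3.trans ?_
  have g4 : (2 : ℝ) * 2 ^ (k + 1) * (2 ^ (k + 1) * 2 ^ (k + 2)) = 2 ^ (3 * k + 5) := by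
    ring
  rw [g4]
  have g5 : (2 : ℝ) ≤ Real.exp 1 := by
    have := Real.add_one_le_exp (1 : ℝ)
    linarith
  calc (2 : ℝ) ^ (3 * k + 5) ≤ (Real.exp 1) ^ (3 * k + 5) :=
        pow_le_pow_left₀ (by norm_num) g5 _
    _ = Real.exp (3 * k + 5) := by
        rw [← Real.exp_nat_mul]
        congr 1
        push_cast
        ring

lemma asym (j : ℕ) (hj : 1 ≤ j) : ∃ N₁ : ℕ, ∀ N : ℕ, N₁ ≤ N →
    (Fintype.card (Code j N) : ℝ) * Real.exp (-((P N).card / (32 * (j : ℝ) ^ 2))) ≤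
      1 / (2 * (N + 1) * ((N + 1) * (N + 2))) := by
  obtain ⟨K, hK⟩ := growth (8192 * j ^ 2 * j + 1024 * j ^ 2 + 5)
  refine ⟨2 ^ (max K (1000 * j ^ 2)), fun N hN => ?_⟩
  have hN1 : 1 ≤ N := Nat.one_le_two_pow.trans hN
  have hkK : max K (1000 * j ^ 2) ≤ Nat.log 2 N := Nat.le_log_of_pow_le (by norm_num) hN
  have hNlow : 2 ^ Nat.log 2 N ≤ N := Nat.pow_log_le_self 2 (by omega)
  have hNupp : N < 2 ^ (Nat.log 2 N + 1) := Nat.lt_pow_succ_log_self (by norm_num) N
  have hpi := pi_lower hN1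
  have hwd : (wd N : ℝ) = (Nat.log 2 N : ℝ) ^ 2 := by
    unfold wd
    push_cast
    rfl
  have hnbdef : nb j N = (Nat.log 2 N + 1) / (64 * j ^ 2) + 1 := rfl
  generalize hk : Nat.log 2 N = k at *
  have hkK1 : K ≤ k := (le_max_left _ _).trans hkK
  have hkA : 1000 * j ^ 2 ≤ k := (le_max_right _ _).trans hkK
  have hA : 1 ≤ j ^ 2 := Nat.one_le_pow _ _ hj
  have hgrow := hK k hkK1
  have hnb : nb j N ≤ k / 2 := by
    rw [hnbdef]
    have h1 : (k + 1) / (64 * j ^ 2) ≤ (k + 1) / 64 :=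
      Nat.div_le_div_left (by omega) (by norm_num)
    omega
  have hj1 : (1 : ℝ) ≤ j := by exact_mod_cast hj
  have hA1 : (1 : ℝ) ≤ (j : ℝ) ^ 2 := by exact_mod_cast hA
  have hkr : 1000 * (j : ℝ) ^ 2 ≤ (k : ℝ) := by exact_mod_cast hkA
  have hE1 : (1 : ℝ) ≤ (2 : ℝ) ^ (k / 2) := one_le_pow₀ (by norm_num)
  have hEn : (8192 * (j : ℝ) ^ 2 * j + 1024 * (j : ℝ) ^ 2 + 5) * (k : ℝ) ^ 3 * (2 : ℝ) ^ (k / 2) ≤
      (N : ℝ) := by
    exact_mod_cast hgrow.trans hNlow
  have hb : (nb j N : ℝ) ≤ (k + 1) / (64 * (j : ℝ) ^ 2) + 1 := by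
    rw [hnbdef]
    push_cast
    have : (((k + 1) / (64 * j ^ 2) : ℕ) : ℝ) ≤ ((k + 1 : ℕ) : ℝ) / ((64 * j ^ 2 : ℕ) : ℝ) :=
      Nat.cast_div_le
    push_cast at this
    linarith
  have hqn : ((N / wd N : ℕ) : ℝ) * (k : ℝ) ^ 2 ≤ N := by
    rw [← hwd]
    exact_mod_cast Nat.div_mul_le_self N (wd N)
  have hl2 : Real.log 2 ≤ 0.7 := by
    have := Real.log_two_lt_d9
    linarith
  have hl20 : 0 ≤ Real.log 2 := Real.log_nonneg (by norm_num)
  have hmain := asym_real hj1 hA1 hkr hE1 hEn hb (Nat.cast_nonneg _) hqn hpi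
    hl2 hl20
  have hcode := card_code_le (j := j) rfl hwd
    (pow_le_pow_right₀ (by norm_num) hnb : (2 : ℝ) ^ nb j N ≤ (2 : ℝ) ^ (k / 2))
  refine le_trans ?_ (rhs_le hNupp)
  refine (mul_le_mul_of_nonneg_right hcode (Real.exp_pos _).le).trans ?_
  rw [← Real.exp_add]
  exact Real.exp_le_exp.2 (by linarith)

end Pool.Agent.PrimeComplexity
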