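import Mathlib
import Pool.Agent.Lib_MP_ff27c1_cb.Corr

/-!
# The sign sequence, and the main theorem
-/

open Finset Filter Topology

namespace Pool.Agent.PrimeComplexity

/-! ## Choice of the signs -/

lemma Good.congr {j N : ℕ} {b b' : ℕ → Bool} (h : ∀ p ∈ P N, b p = b' p) (hb : Good j N b) :
    Good j N b' := by
  intro c
  have h1 : ∑ p ∈ P N, sg (b' p) * val c p = ∑ p ∈ P N, sg (b p) * val c p :=
    Finset.sum_congr rfl fun p hp => by rw [h p hp]
  rw [h1]
  exact hb c

lemma telescope (M : ℕ) :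
    ∑ N ∈ Finset.range M, (1 : ℝ) / ((N + 1) * (N + 2)) = 1 - 1 / (M + 1) := by
  induction M with
  | zero => simp
  | succ M ih =>
    rw [Finset.sum_range_succ, ih]
    push_cast
    field_simp
    ring

lemma exists_finite (N₁ : ℕ → ℕ) (hN₁ : ∀ j : ℕ, 1 ≤ j → ∀ N : ℕ, N₁ j ≤ N →
    (Fintype.card (Code j N) : ℝ) * Real.exp (-((P N).card / (32 * (j : ℝ) ^ 2))) ≤
      1 / (2 * (N + 1) * ((N + 1) * (N + 2)))) (M : ℕ) :
    ∃ b : ℕ → Bool, ∀ j N : ℕ, 1 ≤ j → j ≤ N → N₁ j ≤ N → N < M → Good j N b := by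
  classical
  by_contra hcon
  push Not at hcon
  let I : ℕ → Finset ℕ := fun N => (Finset.Icc 1 N).filter (fun j => N₁ j ≤ N)
  have hsub : (Finset.univ : Finset (Fin M → Bool)) ⊆
      (Finset.range M).biUnion (fun N => (I N).biUnion (fun j =>
        (Finset.univ : Finset (Fin M → Bool)).filter (fun b => ¬ Good j N (ext b)))) := by
    intro b _
    obtain ⟨j, N, h1, h2, h3, h4, h5⟩ := hcon (ext b)
    refine Finset.mem_biUnion.2 ⟨N, Finset.mem_range.2 h4, Finset.mem_biUnion.2 ⟨j, ?_, ?_⟩⟩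
    · exact Finset.mem_filter.2 ⟨Finset.mem_Icc.2 ⟨h1, h2⟩, h3⟩
    · exact Finset.mem_filter.2 ⟨Finset.mem_univ _, h5⟩
  have hcard : ((Finset.univ : Finset (Fin M → Bool)).card : ℝ) ≤
      ∑ N ∈ Finset.range M, ∑ j ∈ I N,
        (((Finset.univ : Finset (Fin M → Bool)).filter
          (fun b => ¬ Good j N (ext b))).card : ℝ) := by
    have h1 := (Finset.card_le_card hsub).trans (Finset.card_biUnion_le.trans
      (Finset.sum_le_sum fun N _ => Finset.card_biUnion_le))
    exact_mod_cast h1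
  have huniv : ((Finset.univ : Finset (Fin M → Bool)).card : ℝ) = 2 ^ M := by
    rw [Finset.card_univ, Fintype.card_fun, Fintype.card_bool, Fintype.card_fin]
    push_cast
    rfl
  have hterm : ∀ N ∈ Finset.range M, ∑ j ∈ I N,
        (((Finset.univ : Finset (Fin M → Bool)).filter
          (fun b => ¬ Good j N (ext b))).card : ℝ) ≤
      2 ^ M / 2 * (1 / ((N + 1) * (N + 2))) := by
    intro N hN
    have h1 : ∀ j ∈ I N, (((Finset.univ : Finset (Fin M → Bool)).filter
          (fun b => ¬ Good j N (ext b))).card : ℝ) ≤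
        2 ^ M * (1 / (2 * (N + 1) * ((N + 1) * (N + 2)))) := by
      intro j hj
      obtain ⟨hj1, hj2⟩ := Finset.mem_filter.1 hj
      have h2 := bad_card (M := M) (Finset.mem_Icc.1 hj1).1 (Finset.mem_range.1 hN)
      refine h2.trans ?_
      calc (Fintype.card (Code j N) : ℝ) * (2 ^ M *
            Real.exp (-((P N).card / (32 * (j : ℝ) ^ 2))))
          = 2 ^ M * (Fintype.card (Code j N) * Real.exp (-((P N).card / (32 * (j : ℝ) ^ 2)))) := by
            ring
        _ ≤ _ := mul_le_mul_of_nonneg_left (hN₁ j (Finset.mem_Icc.1 hj1).1 N hj2) (by positivity)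
    refine (Finset.sum_le_sum h1).trans ?_
    rw [Finset.sum_const, nsmul_eq_mul]
    have h3 : ((I N).card : ℝ) ≤ N + 1 := by
      have h4 : (I N).card ≤ N := by
        refine (Finset.card_le_card (Finset.filter_subset _ _)).trans ?_
        rw [Nat.card_Icc]
        omega
      have h5 : ((I N).card : ℝ) ≤ N := by exact_mod_cast h4
      linarith
    calc ((I N).card : ℝ) * (2 ^ M * (1 / (2 * (N + 1) * ((N + 1) * (N + 2)))))
        ≤ (N + 1) * (2 ^ M * (1 / (2 * (N + 1) * ((N + 1) * (N + 2))))) :=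
          mul_le_mul_of_nonneg_right h3 (by positivity)
      _ = _ := by
          have : (N : ℝ) + 1 ≠ 0 := by positivity
          have : (N : ℝ) + 2 ≠ 0 := by positivity
          field_simp
  have h1 := hcard.trans (Finset.sum_le_sum hterm)
  rw [huniv, ← Finset.mul_sum, telescope] at h1
  have h2 : (0 : ℝ) < 2 ^ M := by positivity
  have h3 : (0 : ℝ) < 1 / (M + 1) := by positivity
  nlinarith

theorem exists_signs : ∃ (f : ℕ → Bool) (N₂ : ℕ → ℕ), ∀ j N : ℕ, 1 ≤ j → N₂ j ≤ N →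
    Good j N f := by
  classical
  have h0 : ∀ j : ℕ, ∃ N₁ : ℕ, 1 ≤ j → ∀ N : ℕ, N₁ ≤ N →
      (Fintype.card (Code j N) : ℝ) * Real.exp (-((P N).card / (32 * (j : ℝ) ^ 2))) ≤
        1 / (2 * (N + 1) * ((N + 1) * (N + 2))) := by
    intro j
    by_cases hj : 1 ≤ j
    · obtain ⟨N₁, h⟩ := asym j hj
      exact ⟨N₁, fun _ => h⟩
    · exact ⟨0, fun h => absurd h hj⟩
  choose N₁ hN₁ using h0
  have h1 := exists_finite N₁ hN₁
  choose B hB using h1
  refine ⟨fun p => decide (∀ᶠ M in (Filter.hyperfilter ℕ : Filter ℕ), B M p = true),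
    fun j => max (N₁ j) j, fun j N hj hN => ?_⟩
  have hagree : ∀ p : ℕ, ∀ᶠ M in (Filter.hyperfilter ℕ : Filter ℕ), B M p =
      decide (∀ᶠ M in (Filter.hyperfilter ℕ : Filter ℕ), B M p = true) := by
    intro p
    by_cases hp : ∀ᶠ M in (Filter.hyperfilter ℕ : Filter ℕ), B M p = true
    · rw [decide_eq_true hp]
      exact hp
    · rw [decide_eq_false hp]
      rw [← Ultrafilter.eventually_not] at hp
      exact hp.mono fun M hM => by simpa using hM
  have h2 : ∀ᶠ M in (Filter.hyperfilter ℕ : Filter ℕ), ∀ p ∈ P N, B M p =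
      decide (∀ᶠ M in (Filter.hyperfilter ℕ : Filter ℕ), B M p = true) := by
    rw [Filter.eventually_all_finset]
    intro p _
    exact hagree p
  have h3 : ∀ᶠ M in (Filter.hyperfilter ℕ : Filter ℕ), N < M :=
    (Filter.eventually_gt_atTop N).filter_mono Nat.hyperfilter_le_atTop
  obtain ⟨M, hM1, hM2⟩ := (h2.and h3).exists
  exact Good.congr hM1 (hB M j N hj ((le_max_right _ _).trans hN) ((le_max_left _ _).trans hN) hM2)

/-! ## Systems -/

lemma real_case {b : ℕ → Bool} {j N : ℕ} (hj : 1 ≤ j) (hb : Good j N b) (hN : 2 ≤ N)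
    {X : Type} [MetricSpace X] {T : X → X} {x : X} {G : X → ℝ} (hG : ∀ y, |G y| ≤ 1) {ε : ℝ}
    (hε : ∀ y z, dist y z < ε → |G y - G z| ≤ 1 / (8 * j)) {s : Finset X}
    (hs : SpansOrbit T x (wd N) ε s) (hcard : s.card ≤ 2 ^ nb j N) :
    ∑ p ∈ P N, sg (b p) * G (T^[p] x) ≤ 7 / (16 * j) * (P N).card := by
  classical
  have hj0 : (0 : ℝ) < j := by exact_mod_cast hj
  have hlog : 0 < Nat.log 2 N := Nat.log_pos (by norm_num) hN
  have hw : 0 < wd N := by
    unfold wd
    positivity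
  obtain ⟨z0, hz0, -⟩ := hs 0
  let e : {z // z ∈ s} → Fin (2 ^ nb j N) := fun z =>
    Fin.castLE (by simpa using hcard) (s.equivFin z)
  have he : Function.Injective e := fun a a' h => s.equivFin.injective (Fin.castLE_injective _ h)
  let d : Fin (2 ^ nb j N) → X := fun i => if h : ∃ z, e z = i then (h.choose : X) else z0
  have hd : ∀ z : {z // z ∈ s}, d (e z) = z := by
    intro z
    have h : ∃ z', e z' = e z := ⟨z, rfl⟩
    show (if h : ∃ z', e z' = e z then (h.choose : X) else z0) = z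
    rw [dif_pos h]
    exact congrArg Subtype.val (he h.choose_spec)
  choose zz hzz hzd using hs
  let c : Code j N := (fun i => e ⟨zz ((i : ℕ) * wd N), hzz _⟩,
    fun a i => Fin.ofNat _ ⌊16 * (j : ℝ) * (G (T^[(i : ℕ)] (d a)) + 1)⌋₊)
  have hval : ∀ p ∈ P N, |G (T^[p] x) - val c p| ≤ 3 / (16 * j) := by
    intro p hp
    have hpN : p ≤ N := Nat.lt_succ_iff.1 (Finset.mem_range.1 (Finset.mem_filter.1 hp).1)
    have hdiv : p / wd N < N / wd N + 1 := Nat.lt_succ_of_le (Nat.div_le_div_right hpN)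
    have hval1 : ((Fin.ofNat (N / wd N + 1) (p / wd N) : Fin _) : ℕ) = p / wd N := by
      simp only [Fin.val_ofNat]
      exact Nat.mod_eq_of_lt hdiv
    have hval2 : ((Fin.ofNat (wd N + 1) (p % wd N) : Fin _) : ℕ) = p % wd N := by
      simp only [Fin.val_ofNat]
      exact Nat.mod_eq_of_lt ((Nat.mod_lt _ hw).trans (Nat.lt_succ_self _))
    have h1 := hzd (p / wd N * wd N) (p % wd N) (Nat.mod_lt _ hw)
    have h2 := hε _ _ h1
    have h3 : T^[p % wd N] (T^[p / wd N * wd N] x) = T^[p] x := by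
      rw [← Function.iterate_add_apply]
      congr 1
      rw [mul_comm]
      exact Nat.mod_add_div p (wd N)
    rw [h3] at h2
    set g := G (T^[p % wd N] (zz (p / wd N * wd N))) with hg
    have hg1 := abs_le.1 (hG (T^[p % wd N] (zz (p / wd N * wd N))))
    rw [← hg] at hg1
    have h4 : val c p = ((⌊16 * (j : ℝ) * (g + 1)⌋₊ : ℝ) - 16 * j) / (16 * j) := by
      have h5 : (c.2 (c.1 (Fin.ofNat _ (p / wd N))) (Fin.ofNat _ (p % wd N)) :
          Fin (2 * (16 * j) + 1)) = Fin.ofNat _ ⌊16 * (j : ℝ) * (g + 1)⌋₊ := by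
        show Fin.ofNat _ ⌊16 * (j : ℝ) * (G (T^[((Fin.ofNat (wd N + 1) (p % wd N) : Fin _) : ℕ)]
          (d (e ⟨zz (((Fin.ofNat (N / wd N + 1) (p / wd N) : Fin _) : ℕ) * wd N), hzz _⟩))) + 1)⌋₊ = _
        rw [hval2, hd, hg]
        simp only [hval1]
      unfold val
      rw [h5, Fin.val_ofNat, Nat.mod_eq_of_lt]
      rw [Nat.lt_succ_iff]
      have h6 : 16 * (j : ℝ) * (g + 1) ≤ ((2 * (16 * j) : ℕ) : ℝ) := by
        push_cast
        nlinarith
      exact Nat.floor_le_of_le h6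
    have h7 : (⌊16 * (j : ℝ) * (g + 1)⌋₊ : ℝ) ≤ 16 * (j : ℝ) * (g + 1) :=
      Nat.floor_le (by nlinarith)
    have h8 : 16 * (j : ℝ) * (g + 1) < ⌊16 * (j : ℝ) * (g + 1)⌋₊ + 1 := Nat.lt_floor_add_one _
    have h9 : val c p ≤ g := by
      rw [h4, div_le_iff₀ (by positivity)]
      nlinarith
    have h10 : g - 1 / (16 * j) ≤ val c p := by
      rw [h4, le_div_iff₀ (by positivity)]
      have : (g - 1 / (16 * (j : ℝ))) * (16 * j) = 16 * j * g - 1 := by
        field_simp
      rw [this]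
      linarith
    have h11 := abs_le.1 h2
    have h12 : 3 / (16 * (j : ℝ)) = 1 / (8 * j) + 1 / (16 * j) := by
      field_simp
      norm_num
    rw [h12, abs_le]
    have h13 : (0 : ℝ) < 1 / (16 * j) := by positivity
    constructor
    · linarith [h11.1]
    · linarith [h11.2]
  have hsplit : ∑ p ∈ P N, sg (b p) * G (T^[p] x) =
      ∑ p ∈ P N, sg (b p) * val c p + ∑ p ∈ P N, sg (b p) * (G (T^[p] x) - val c p) := by
    rw [← Finset.sum_add_distrib]
    refine Finset.sum_congr rfl fun p _ => by ring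
  have h1 := hb c
  have h2 : ∑ p ∈ P N, sg (b p) * (G (T^[p] x) - val c p) ≤ (P N).card * (3 / (16 * j)) := by
    rw [← nsmul_eq_mul]
    refine Finset.sum_le_card_nsmul _ _ _ fun p hp => ?_
    have h3 := abs_le.1 (hval p hp)
    cases b p
    · simp only [sg, Bool.false_eq_true, if_false]
      linarith [h3.1]
    · simp only [sg, if_true]
      linarith [h3.2]
  rw [hsplit]
  have h3 : 7 / (16 * (j : ℝ)) * (P N).card =
      1 / (4 * j) * (P N).card + (P N).card * (3 / (16 * j)) := by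
    field_simp
    ring
  rw [h3]
  exact add_le_add h1 h2

lemma P_pos {N : ℕ} (hN : 2 ≤ N) : 0 < (P N).card :=
  Finset.card_pos.2 ⟨2, Finset.mem_filter.2 ⟨Finset.mem_range.2 (by omega), Nat.prime_two⟩⟩

lemma complex_case {b : ℕ → Bool} {j N : ℕ} (hj : 1 ≤ j) (hb : Good j N b) (hN : 2 ≤ N)
    {X : Type} [MetricSpace X] {T : X → X} {x : X} {F : X → ℂ} (hF : ∀ y, ‖F y‖ ≤ 1) {ε : ℝ}
    (hε : ∀ y z, dist y z < ε → ‖F y - F z‖ ≤ 1 / (8 * j)) {s : Finset X}
    (hs : SpansOrbit T x (wd N) ε s) (hcard : s.card ≤ 2 ^ nb j N) :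
    ‖∑ p ∈ P N, ((sg (b p) : ℝ) : ℂ) * F (T^[p] x)‖ < 1 / j * (P N).card := by
  have hj0 : (0 : ℝ) < j := by exact_mod_cast hj
  have hre : (∑ p ∈ P N, ((sg (b p) : ℝ) : ℂ) * F (T^[p] x)).re =
      ∑ p ∈ P N, sg (b p) * (F (T^[p] x)).re := by
    rw [Complex.re_sum]
    exact Finset.sum_congr rfl fun p _ => Complex.re_ofReal_mul _ _
  have him : (∑ p ∈ P N, ((sg (b p) : ℝ) : ℂ) * F (T^[p] x)).im =
      ∑ p ∈ P N, sg (b p) * (F (T^[p] x)).im := by
    rw [Complex.im_sum]
    exact Finset.sum_congr rfl fun p _ => Complex.im_ofReal_mul _ _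
  have h1 := real_case hj hb hN (x := x) (G := fun y => (F y).re)
    (fun y => (Complex.abs_re_le_norm _).trans (hF y))
    (fun y z h => by
      rw [← Complex.sub_re]
      exact (Complex.abs_re_le_norm _).trans (hε y z h)) hs hcard
  have h2 := real_case hj hb hN (x := x) (G := fun y => -(F y).re)
    (fun y => by
      rw [abs_neg]
      exact (Complex.abs_re_le_norm _).trans (hF y))
    (fun y z h => by
      rw [neg_sub_neg, abs_sub_comm, ← Complex.sub_re]
      exact (Complex.abs_re_le_norm _).trans (hε y z h)) hs hcard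
  have h3 := real_case hj hb hN (x := x) (G := fun y => (F y).im)
    (fun y => (Complex.abs_im_le_norm _).trans (hF y))
    (fun y z h => by
      rw [← Complex.sub_im]
      exact (Complex.abs_im_le_norm _).trans (hε y z h)) hs hcard
  have h4 := real_case hj hb hN (x := x) (G := fun y => -(F y).im)
    (fun y => by
      rw [abs_neg]
      exact (Complex.abs_im_le_norm _).trans (hF y))
    (fun y z h => by
      rw [neg_sub_neg, abs_sub_comm, ← Complex.sub_im]
      exact (Complex.abs_im_le_norm _).trans (hε y z h)) hs hcard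
  simp only [mul_neg, Finset.sum_neg_distrib] at h2 h4
  have h5 : |(∑ p ∈ P N, ((sg (b p) : ℝ) : ℂ) * F (T^[p] x)).re| ≤
      7 / (16 * j) * (P N).card := by
    rw [hre, abs_le]
    constructor <;> linarith
  have h6 : |(∑ p ∈ P N, ((sg (b p) : ℝ) : ℂ) * F (T^[p] x)).im| ≤
      7 / (16 * j) * (P N).card := by
    rw [him, abs_le]
    constructor <;> linarith
  have h7 := Complex.norm_le_abs_re_add_abs_im (∑ p ∈ P N, ((sg (b p) : ℝ) : ℂ) * F (T^[p] x))
  have h8 : (0 : ℝ) < (P N).card := by exact_mod_cast P_pos hN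
  have h9 : 7 / (16 * (j : ℝ)) * (P N).card + 7 / (16 * j) * (P N).card <
      1 / j * (P N).card := by
    rw [← add_mul]
    refine mul_lt_mul_of_pos_right ?_ h8
    rw [← add_div, div_lt_div_iff₀ (by positivity) hj0]
    nlinarith
  linarith

end Pool.Agent.PrimeComplexity
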