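import Mathlib
import Pool.Agent.Lib_MP_ff27c1_cb.Corr

/-!
# Nonexpansive extensions of modulus `o(1 / log)` of slow systems of finite box dimension
-/

open Finset Filter Topology

namespace Pool.Agent.PrimeComplexity

lemma tendsto_two_rpow {c : ℝ} (hc : 0 < c) :
    Tendsto (fun n : ℕ => (2 : ℝ) ^ (c * √(n : ℝ))) atTop atTop := by
  have h1 : Tendsto (fun n : ℕ => Real.log 2 * (c * √(n : ℝ))) atTop atTop := by
    refine Tendsto.const_mul_atTop (Real.log_pos (by norm_num)) ?_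
    refine Tendsto.const_mul_atTop hc ?_
    exact Real.tendsto_sqrt_atTop.comp tendsto_natCast_atTop_atTop
  have h2 := Real.tendsto_exp_atTop.comp h1
  refine h2.congr fun n => ?_
  show Real.exp (Real.log 2 * (c * √(n : ℝ))) = _
  rw [Real.rpow_def_of_pos (by norm_num : (0 : ℝ) < 2)]

/-- A slow system of finite box dimension is followed by few orbits up to precision
`2^(-c' √n)`. -/
lemma fine_net {Z : Type} [MetricSpace Z] {S : Z → Z} (hZ : FiniteBoxDim Z) (hS : SlowGrowth S)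
    {c : ℝ} (hc : 0 < c) : ∃ c' : ℝ, 0 < c' ∧ ∃ n₀ : ℕ, ∀ n : ℕ, n₀ ≤ n →
      ∃ s : Finset Z, (∀ z, ∃ z' ∈ s, ∀ j : ℕ, j ≤ n →
        dist (S^[j] z) (S^[j] z') ≤ 2 ^ (-(c' * √(n : ℝ))) / 2) ∧
        (s.card : ℝ) ≤ 2 ^ (c * √(n : ℝ)) := by
  obtain ⟨C₀, D, hD, hcov⟩ := hZ
  obtain ⟨β, hβ, hgrow⟩ := hS
  obtain ⟨C₁, hC₁⟩ := hgrow (β * c / (8 * D)) (by positivity)
  refine ⟨β * c / (8 * D), by positivity, ?_⟩
  obtain ⟨n₁, hn₁⟩ := eventually_atTop.1
    ((tendsto_two_rpow (by linarith : 0 < c / 2)).eventually_ge_atTop C₀)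
  obtain ⟨n₂, hn₂⟩ := eventually_atTop.1
    ((tendsto_two_rpow (by positivity : 0 < β * c / (8 * D))).eventually_ge_atTop (2 * C₁))
  refine ⟨max n₁ n₂, fun n hn => ?_⟩
  have hbig1 := hn₁ n ((le_max_left _ _).trans hn)
  have hbig2 := hn₂ n ((le_max_right _ _).trans hn)
  obtain ⟨ρ, hρ⟩ : ∃ ρ : ℝ, ρ = (2 : ℝ) ^ (-(c / (2 * D) * √(n : ℝ))) := ⟨_, rfl⟩
  have hρ0 : 0 < ρ := by rw [hρ]; positivity
  have hρ1 : ρ ≤ 1 := by
    rw [hρ]
    exact Real.rpow_le_one_of_one_le_of_nonpos (by norm_num) (neg_nonpos.2 (by positivity))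
  obtain ⟨s, hs1, hs2⟩ := hcov ρ hρ0 hρ1
  refine ⟨s, fun z => ?_, ?_⟩
  · obtain ⟨z', hz', hd⟩ := hs1 z
    refine ⟨z', hz', fun j hj => ?_⟩
    have hpow : dist z z' ^ β ≤ (2 : ℝ) ^ (-(4 * (β * c / (8 * D)) * √(n : ℝ))) := by
      have h4 := Real.rpow_le_rpow dist_nonneg hd hβ.le
      refine h4.trans (le_of_eq ?_)
      rw [hρ, ← Real.rpow_mul (by norm_num)]
      congr 1
      field_simp
      ring
    have hjn : (2 : ℝ) ^ (β * c / (8 * D) * √(j : ℝ)) ≤ 2 ^ (β * c / (8 * D) * √(n : ℝ)) := by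
      refine Real.rpow_le_rpow_of_exponent_le (by norm_num) ?_
      refine mul_le_mul_of_nonneg_left ?_ (by positivity)
      exact Real.sqrt_le_sqrt (by exact_mod_cast hj)
    have hC1 : C₁ * 2 ^ (β * c / (8 * D) * √(j : ℝ)) ≤
        2 ^ (β * c / (8 * D) * √(n : ℝ)) / 2 * 2 ^ (β * c / (8 * D) * √(n : ℝ)) := by
      have h6 : C₁ ≤ 2 ^ (β * c / (8 * D) * √(n : ℝ)) / 2 := by linarith
      exact (mul_le_mul_of_nonneg_right h6 (by positivity)).trans
        (mul_le_mul_of_nonneg_left hjn (by positivity))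
    calc dist (S^[j] z) (S^[j] z')
        ≤ C₁ * 2 ^ (β * c / (8 * D) * √(j : ℝ)) * dist z z' ^ β := hC₁ j _ _
      _ ≤ (2 ^ (β * c / (8 * D) * √(n : ℝ)) / 2 * 2 ^ (β * c / (8 * D) * √(n : ℝ))) *
          2 ^ (-(4 * (β * c / (8 * D)) * √(n : ℝ))) :=
        mul_le_mul hC1 hpow (Real.rpow_nonneg dist_nonneg _) (by positivity)
      _ = 2 ^ (-(2 * (β * c / (8 * D)) * √(n : ℝ))) / 2 := by
        rw [div_mul_eq_mul_div, div_mul_eq_mul_div, ← Real.rpow_add (by norm_num),
          ← Real.rpow_add (by norm_num)]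
        congr 2
        ring
      _ ≤ 2 ^ (-(β * c / (8 * D) * √(n : ℝ))) / 2 := by
        refine div_le_div_of_nonneg_right ?_ (by norm_num)
        refine Real.rpow_le_rpow_of_exponent_le (by norm_num) ?_
        have : 0 ≤ β * c / (8 * D) * √(n : ℝ) := by positivity
        nlinarith
  · have h5 : ρ ^ (-D) = (2 : ℝ) ^ (c / 2 * √(n : ℝ)) := by
      rw [hρ, ← Real.rpow_mul (by norm_num)]
      congr 1
      field_simp
    rw [h5] at hs2
    calc (s.card : ℝ) ≤ C₀ * 2 ^ (c / 2 * √(n : ℝ)) := hs2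
      _ ≤ 2 ^ (c / 2 * √(n : ℝ)) * 2 ^ (c / 2 * √(n : ℝ)) :=
        mul_le_mul_of_nonneg_right hbig1 (by positivity)
      _ = 2 ^ (c * √(n : ℝ)) := by
        rw [← Real.rpow_add (by norm_num)]
        congr 1
        ring

lemma ext_fst {Z Y : Type} (S : Z → Z) (h : Z → Y → Y) (w : Z × Y) (j : ℕ) :
    ((fibreExt S h)^[j] w).1 = S^[j] w.1 := by
  induction j with
  | zero => rfl
  | succ j ih =>
    rw [Function.iterate_succ_apply', Function.iterate_succ_apply', ← ih]
    rfl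

/-- One step of the fibre coordinate. -/
lemma ext_step {Z Y : Type} [MetricSpace Z] [MetricSpace Y] {S : Z → Z} {h : Z → Y → Y}
    (hne : Nonexpansive h) {κ δ r : ℝ} (hδ0 : 0 < δ) (hδ1 : δ < 1) (hδr : δ < r) (hκ : 0 ≤ κ)
    (hmod : ∀ u v : Z, u ≠ v → dist u v < r → ∀ y : Y, dist (h u y) (h v y) *
      |Real.log (dist u v)| ≤ κ) (w w' : Z × Y) (j : ℕ)
    (hd : dist (S^[j] w.1) (S^[j] w'.1) ≤ δ) :
    dist ((fibreExt S h)^[j + 1] w).2 ((fibreExt S h)^[j + 1] w').2 ≤
      dist ((fibreExt S h)^[j] w).2 ((fibreExt S h)^[j] w').2 + κ / |Real.log δ| := by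
  rw [Function.iterate_succ_apply', Function.iterate_succ_apply']
  rw [← ext_fst S h w j, ← ext_fst S h w' j] at hd
  generalize (fibreExt S h)^[j] w = a at *
  generalize (fibreExt S h)^[j] w' = b at *
  show dist (h a.1 a.2) (h b.1 b.2) ≤ dist a.2 b.2 + κ / |Real.log δ|
  have hlog : 0 < |Real.log δ| := abs_pos.2 (Real.log_neg hδ0 hδ1).ne
  have h1 : dist (h a.1 b.2) (h b.1 b.2) ≤ κ / |Real.log δ| := by
    by_cases hab : a.1 = b.1
    · rw [hab, dist_self]
      positivity
    · rw [le_div_iff₀ hlog]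
      refine le_trans ?_ (hmod a.1 b.1 hab (hd.trans_lt hδr) b.2)
      refine mul_le_mul_of_nonneg_left ?_ dist_nonneg
      have h2 : 0 < dist a.1 b.1 := dist_pos.2 hab
      have h3 : Real.log (dist a.1 b.1) ≤ Real.log δ := Real.log_le_log h2 hd
      have h4 : Real.log δ < 0 := Real.log_neg hδ0 hδ1
      rw [abs_of_neg h4, abs_of_neg (by linarith)]
      linarith
  calc dist (h a.1 a.2) (h b.1 b.2) ≤ dist (h a.1 a.2) (h a.1 b.2) +
        dist (h a.1 b.2) (h b.1 b.2) := dist_triangle _ _ _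
    _ ≤ dist a.2 b.2 + κ / |Real.log δ| := add_le_add (hne _ _ _) h1

/-- A nonexpansive extension of modulus `o(1 / log)`, with any compact fibre, of a slow system of
finite box dimension has low complexity. -/
theorem low_ext {Z Y : Type} [MetricSpace Z] [MetricSpace Y] [CompactSpace Y] {S : Z → Z}
    {h : Z → Y → Y} (hZ : FiniteBoxDim Z) (hS : SlowGrowth S) (hne : Nonexpansive h)
    (hmod : LogModulus h) (w : Z × Y) : LowComplexity (fibreExt S h) w := by
  classical
  intro ε hε c hc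
  -- a net of the fibre
  obtain ⟨t, ht⟩ : ∃ t : Finset Y, ∀ y, ∃ y' ∈ t, dist y y' < ε / 8 := by
    obtain ⟨t, -, ht1, ht2⟩ := (isCompact_univ : IsCompact (Set.univ : Set Y)).finite_cover_balls
      (by positivity : 0 < ε / 8)
    refine ⟨ht1.toFinset, fun y => ?_⟩
    have := ht2 (Set.mem_univ y)
    rw [Set.mem_iUnion₂] at this
    obtain ⟨y', hy', hy⟩ := this
    exact ⟨y', ht1.mem_toFinset.2 hy', hy⟩
  obtain ⟨K, hK⟩ : ∃ K : ℝ, K = t.card + 1 := ⟨_, rfl⟩
  have hK1 : 1 ≤ K := by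
    rw [hK]
    have : (0 : ℝ) ≤ t.card := Nat.cast_nonneg _
    linarith
  have hlK : 0 ≤ Real.logb 2 K := Real.logb_nonneg (by norm_num) hK1
  -- the length `C √n` of the pieces
  obtain ⟨C, hC⟩ : ∃ C : ℝ, C = 4 * Real.logb 2 K / c + 1 := ⟨_, rfl⟩
  have hC1 : 1 ≤ C := by rw [hC]; have : 0 ≤ 4 * Real.logb 2 K / c := by positivity
                         linarith
  have hC0 : 0 < C := by linarith
  obtain ⟨c', hc', n₁, hn₁⟩ := fine_net hZ hS (by linarith : 0 < c / 4)
  have hl2 : 0 < Real.log 2 := Real.log_pos (by norm_num)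
  obtain ⟨r, hr, hmod'⟩ := hmod (ε * (c' * Real.log 2) / (16 * C)) (by positivity)
  obtain ⟨n₂, hn₂⟩ := eventually_atTop.1
    ((tendsto_two_rpow hc').eventually_gt_atTop (1 / min r (min (ε / 2) 1)))
  obtain ⟨n₃, hn₃⟩ := eventually_atTop.1
    ((tendsto_two_rpow (by linarith : 0 < c / 4)).eventually_ge_atTop K)
  refine ⟨max (max n₁ n₂) (max n₃ 1), fun n hn => ?_⟩
  obtain ⟨s, hs1, hs2⟩ := hn₁ n (by omega)
  have hb2 := hn₂ n (by omega)
  have hb3 := hn₃ n (by omega)
  have hn1 : 1 ≤ n := by omega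
  have hn1' : (1 : ℝ) ≤ n := by exact_mod_cast hn1
  have hsq1 : 1 ≤ √(n : ℝ) := Real.one_le_sqrt.2 hn1'
  -- the precision on the base
  obtain ⟨δ, hδ⟩ : ∃ δ : ℝ, δ = (2 : ℝ) ^ (-(c' * √(n : ℝ))) := ⟨_, rfl⟩
  have hδ0 : 0 < δ := by rw [hδ]; positivity
  have hδm : δ < min r (min (ε / 2) 1) := by
    have hm : 0 < min r (min (ε / 2) 1) := by positivity
    rw [hδ, Real.rpow_neg (by norm_num)]
    rw [div_lt_iff₀ hm] at hb2
    rw [inv_lt_iff_one_lt_mul₀ (by positivity)]
    linarith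
  have hδr : δ < r := hδm.trans_le (min_le_left _ _)
  have hδε : δ < ε / 2 := hδm.trans_le ((min_le_right _ _).trans (min_le_left _ _))
  have hδ1 : δ < 1 := hδm.trans_le ((min_le_right _ _).trans (min_le_right _ _))
  have hlogδ : |Real.log δ| = c' * Real.log 2 * √(n : ℝ) := by
    rw [hδ, Real.log_rpow (by norm_num), abs_of_nonpos]
    · ring
    · have : 0 ≤ c' * √(n : ℝ) * Real.log 2 := by positivity
      linarith
  -- the error of one step
  obtain ⟨η, hη⟩ : ∃ η : ℝ, η = ε * (c' * Real.log 2) / (16 * C) / |Real.log δ| := ⟨_, rfl⟩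
  have hη' : η * (2 * (C * √(n : ℝ))) = ε / 8 := by
    rw [hη, hlogδ]
    field_simp
    ring
  have hη0 : 0 ≤ η := by
    rw [hη]
    positivity
  obtain ⟨L, hL⟩ : ∃ L : ℕ, L = ⌈C * √(n : ℝ)⌉₊ := ⟨_, rfl⟩
  have hCs : 1 ≤ C * √(n : ℝ) := one_le_mul_of_one_le_of_one_le hC1 hsq1
  have hL1 : C * √(n : ℝ) ≤ L := by rw [hL]; exact Nat.le_ceil _
  have hL2 : (L : ℝ) ≤ 2 * (C * √(n : ℝ)) := by
    have := (Nat.ceil_lt_add_one (by linarith : 0 ≤ C * √(n : ℝ))).le
    rw [← hL] at this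
    linarith
  have hL0 : 0 < L := by
    have : (0 : ℝ) < L := by linarith
    exact_mod_cast this
  obtain ⟨q, hq⟩ : ∃ q : ℕ, q = n / L + 1 := ⟨_, rfl⟩
  -- codes
  choose netZ hnetZ1 hnetZ2 using hs1
  choose netY hnetY1 hnetY2 using ht
  let code : Z × Y → s × (Fin q → t) := fun v =>
    (⟨netZ v.1, hnetZ1 v.1⟩, fun i => ⟨netY ((fibreExt S h)^[i * L] v).2, hnetY1 _⟩)
  have : Nonempty (Z × Y) := ⟨w⟩
  refine ⟨Finset.univ.image (Function.invFun code), ?_, ?_⟩
  · intro m
    generalize (fibreExt S h)^[m] w = v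
    refine ⟨Function.invFun code (code v), Finset.mem_image_of_mem _ (Finset.mem_univ _), ?_⟩
    have hcode : code (Function.invFun code (code v)) = code v := Function.invFun_eq ⟨v, rfl⟩
    generalize Function.invFun code (code v) = v' at *
    have hz1 : netZ v'.1 = netZ v.1 := by
      have := congrArg (fun a => (a.1 : Z)) hcode
      exact this
    have hy1 : ∀ i : Fin q, netY ((fibreExt S h)^[i * L] v').2 = netY ((fibreExt S h)^[i * L] v).2 := by
      intro i
      have := congrArg (fun a => ((a.2 i : t) : Y)) hcode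
      exact this
    have hzd : ∀ j ≤ n, dist (S^[j] v.1) (S^[j] v'.1) ≤ δ := by
      intro j hj
      have h1 := hnetZ2 v.1 j hj
      have h2 := hnetZ2 v'.1 j hj
      rw [hz1] at h2
      rw [dist_comm] at h2
      have h3 := dist_triangle (S^[j] v.1) (S^[j] (netZ v.1)) (S^[j] v'.1)
      rw [hδ]
      linarith
    have hyd : ∀ i < q, ∀ k ≤ L, i * L + k ≤ n →
        dist ((fibreExt S h)^[i * L + k] v).2 ((fibreExt S h)^[i * L + k] v').2 ≤ ε / 4 + k * η := by
      intro i hi k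
      induction k with
      | zero =>
        intro _ _
        rw [add_zero]
        have h1 := hnetY2 ((fibreExt S h)^[i * L] v).2
        have h2 := hnetY2 ((fibreExt S h)^[i * L] v').2
        rw [show netY ((fibreExt S h)^[i * L] v').2 = netY ((fibreExt S h)^[i * L] v).2 from hy1 ⟨i, hi⟩,
          dist_comm] at h2
        have h3 := dist_triangle ((fibreExt S h)^[i * L] v).2 (netY ((fibreExt S h)^[i * L] v).2)
          ((fibreExt S h)^[i * L] v').2
        push_cast
        linarith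
      | succ k ih =>
        intro hk hkn
        have h1 := ih (by omega) (by omega)
        have h2 := ext_step hne hδ0 hδ1 hδr (by positivity) hmod' v v' (i * L + k)
          (hzd _ (by omega))
        rw [← hη] at h2
        rw [← add_assoc]
        push_cast
        linarith
    intro j hj
    rw [Prod.dist_eq]
    refine max_lt ?_ ?_
    · rw [ext_fst, ext_fst]
      exact (hzd j hj.le).trans_lt (by linarith)
    · have h1 : j / L * L + j % L = j := Nat.div_add_mod' j L
      have h2 : j / L < q := by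
        rw [hq]
        exact Nat.lt_succ_of_le (Nat.div_le_div_right hj.le)
      have h3 : j % L < L := Nat.mod_lt _ hL0
      have h4 := hyd (j / L) h2 (j % L) h3.le (by omega)
      rw [h1] at h4
      have h5 : ((j % L : ℕ) : ℝ) * η ≤ ε / 8 := by
        rw [← hη', mul_comm η]
        refine mul_le_mul_of_nonneg_right (le_trans ?_ hL2) hη0
        exact_mod_cast h3.le
      linarith
  · have h1 : ((Finset.univ.image (Function.invFun code)).card : ℝ) ≤ s.card * K ^ q := by
      have h2 : (Finset.univ.image (Function.invFun code)).card ≤ s.card * t.card ^ q := by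
        refine Finset.card_image_le.trans (le_of_eq ?_)
        rw [Finset.card_univ, Fintype.card_prod, Fintype.card_fun, Fintype.card_fin,
          Fintype.card_coe, Fintype.card_coe]
      have h3 : ((s.card * t.card ^ q : ℕ) : ℝ) ≤ s.card * K ^ q := by
        push_cast
        refine mul_le_mul_of_nonneg_left ?_ (Nat.cast_nonneg _)
        exact pow_le_pow_left₀ (Nat.cast_nonneg _) (by rw [hK]; linarith) q
      exact le_trans (by exact_mod_cast h2) h3
    have h2 : K ^ (n / L) ≤ 2 ^ (c / 4 * √(n : ℝ)) := by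
      have h3 : ((n / L : ℕ) : ℝ) ≤ √(n : ℝ) / C := by
        refine Nat.cast_div_le.trans ?_
        rw [div_le_div_iff₀ (by linarith) hC0]
        have h4 : (n : ℝ) = √(n : ℝ) * √(n : ℝ) := (Real.mul_self_sqrt (by linarith)).symm
        calc (n : ℝ) * C = √(n : ℝ) * (C * √(n : ℝ)) := by
              conv_lhs => rw [h4]
              ring
          _ ≤ √(n : ℝ) * L := mul_le_mul_of_nonneg_left hL1 (by linarith)
      have h4 : K ^ (n / L) = (2 : ℝ) ^ (Real.logb 2 K * ((n / L : ℕ) : ℝ)) := by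
        rw [Real.rpow_mul (by norm_num), Real.rpow_logb (by norm_num) (by norm_num) (by linarith),
          Real.rpow_natCast]
      rw [h4]
      refine Real.rpow_le_rpow_of_exponent_le (by norm_num) ?_
      refine (mul_le_mul_of_nonneg_left h3 hlK).trans ?_
      rw [mul_div_assoc', div_le_iff₀ hC0, hC]
      have h5 : c / 4 * √(n : ℝ) * (4 * Real.logb 2 K / c + 1) =
          Real.logb 2 K * √(n : ℝ) + c / 4 * √(n : ℝ) := by
        field_simp
      rw [h5]
      have : 0 ≤ c / 4 * √(n : ℝ) := by positivity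
      linarith
    calc ((Finset.univ.image (Function.invFun code)).card : ℝ) ≤ s.card * K ^ q := h1
      _ = s.card * (K ^ (n / L) * K) := by rw [hq, pow_succ]
      _ ≤ 2 ^ (c / 4 * √(n : ℝ)) * (2 ^ (c / 4 * √(n : ℝ)) * 2 ^ (c / 4 * √(n : ℝ))) := by
        refine mul_le_mul hs2 ?_ (by positivity) (by positivity)
        exact mul_le_mul h2 hb3 (by linarith) (by positivity)
      _ = 2 ^ (3 * (c / 4) * √(n : ℝ)) := by
        rw [← Real.rpow_add (by norm_num), ← Real.rpow_add (by norm_num)]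
        congr 1
        ring
      _ ≤ 2 ^ (c * √(n : ℝ)) := by
        refine Real.rpow_le_rpow_of_exponent_le (by norm_num) ?_
        refine mul_le_mul_of_nonneg_right ?_ (by linarith)
        linarith

end Pool.Agent.PrimeComplexity
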