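import Mathlib
import Pool.Agent.Lib_MP_ff27c1_cb.Ext

/-!
# Maps of finite-dimensional spaces whose iterates have small Hölder constants
-/

open Finset Filter Topology

namespace Pool.Agent.PrimeComplexity

theorem low_of_growth {X : Type} [MetricSpace X] {T : X → X} (hX : FiniteBoxDim X)
    (hT : SlowGrowth T) (x : X) : LowComplexity T x := by
  intro ε hε c hc
  obtain ⟨C₀, D, hD, hcov⟩ := hX
  obtain ⟨β, hβ, hgrow⟩ := hT
  obtain ⟨C₁, hC₁⟩ := hgrow (β * c / (2 * D)) (by positivity)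
  obtain ⟨C', hC'⟩ : ∃ C' : ℝ, C' = max C₁ (max ε 1) := ⟨_, rfl⟩
  have h1 : C₁ ≤ C' := by rw [hC']; exact le_max_left _ _
  have h2 : ε ≤ C' := by rw [hC']; exact (le_max_left _ _).trans (le_max_right _ _)
  have h3 : 1 ≤ C' := by rw [hC']; exact (le_max_right _ _).trans (le_max_right _ _)
  have hC'0 : 0 < C' := by linarith
  obtain ⟨n₀, hn₀⟩ := eventually_atTop.1 ((tendsto_two_rpow (by linarith : 0 < c / 2)).eventually_ge_atTop
    (max C₀ 1 * (2 * C' / ε) ^ (D / β)))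
  refine ⟨n₀, fun n hn => ?_⟩
  have hbig := hn₀ n hn
  obtain ⟨R, hR⟩ : ∃ R : ℝ, R = (2 : ℝ) ^ (β * c / (2 * D) * √(n : ℝ)) := ⟨_, rfl⟩
  have hR1 : 1 ≤ R := by
    rw [hR]
    exact Real.one_le_rpow (by norm_num) (by positivity)
  have hR0 : 0 < R := by linarith
  obtain ⟨y, hy⟩ : ∃ y : ℝ, y = ε / (2 * C' * R) := ⟨_, rfl⟩
  have hy0 : 0 < y := by rw [hy]; positivity
  have hy1 : y ≤ 1 := by
    rw [hy, div_le_one (by positivity)]
    have : C' ≤ C' * R := le_mul_of_one_le_right hC'0.le hR1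
    nlinarith
  obtain ⟨s, hs1, hs2⟩ := hcov (y ^ (1 / β)) (by positivity)
    (Real.rpow_le_one hy0.le hy1 (by positivity))
  refine ⟨s, ?_, ?_⟩
  · intro m
    obtain ⟨z, hz, hd⟩ := hs1 (T^[m] x)
    refine ⟨z, hz, fun j hj => ?_⟩
    have hpow : dist (T^[m] x) z ^ β ≤ y := by
      have h4 := Real.rpow_le_rpow dist_nonneg hd hβ.le
      rwa [← Real.rpow_mul hy0.le, one_div_mul_cancel hβ.ne', Real.rpow_one] at h4
    have hjn : (2 : ℝ) ^ (β * c / (2 * D) * √(j : ℝ)) ≤ R := by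
      rw [hR]
      refine Real.rpow_le_rpow_of_exponent_le (by norm_num) ?_
      refine mul_le_mul_of_nonneg_left ?_ (by positivity)
      exact Real.sqrt_le_sqrt (by exact_mod_cast hj.le)
    have h5 : C₁ * 2 ^ (β * c / (2 * D) * √(j : ℝ)) * dist (T^[m] x) z ^ β ≤ C' * R * y := by
      have h6 : C₁ * 2 ^ (β * c / (2 * D) * √(j : ℝ)) ≤ C' * R :=
        (mul_le_mul_of_nonneg_right h1 (by positivity)).trans
          (mul_le_mul_of_nonneg_left hjn hC'0.le)
      exact (mul_le_mul_of_nonneg_right h6 (Real.rpow_nonneg dist_nonneg _)).trans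
        (mul_le_mul_of_nonneg_left hpow (by positivity))
    have h7 : C' * R * y = ε / 2 := by
      rw [hy]
      field_simp
    calc dist (T^[j] (T^[m] x)) (T^[j] z)
        ≤ C₁ * 2 ^ (β * c / (2 * D) * √(j : ℝ)) * dist (T^[m] x) z ^ β := hC₁ j _ _
      _ ≤ ε / 2 := by rw [← h7]; exact h5
      _ < ε := by linarith
  · have h4 : (y ^ (1 / β)) ^ (-D) = (2 * C' / ε) ^ (D / β) * (2 : ℝ) ^ (c / 2 * √(n : ℝ)) := by
      have h5 : (2 : ℝ) ^ (c / 2 * √(n : ℝ)) = R ^ (D / β) := by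
        rw [hR, ← Real.rpow_mul (by norm_num)]
        congr 1
        field_simp
      rw [h5, ← Real.mul_rpow (by positivity) hR0.le, ← Real.rpow_mul hy0.le]
      have h6 : 2 * C' / ε * R = y⁻¹ := by
        rw [hy, inv_div]
        ring
      rw [h6, Real.inv_rpow hy0.le, ← Real.rpow_neg hy0.le]
      congr 1
      ring
    rw [h4] at hs2
    have h8 : (0 : ℝ) < 2 ^ (c / 2 * √(n : ℝ)) := by positivity
    have h9 : (0 : ℝ) ≤ (2 * C' / ε) ^ (D / β) := by positivity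
    calc (s.card : ℝ) ≤ C₀ * ((2 * C' / ε) ^ (D / β) * 2 ^ (c / 2 * √(n : ℝ))) := hs2
      _ ≤ max C₀ 1 * ((2 * C' / ε) ^ (D / β) * 2 ^ (c / 2 * √(n : ℝ))) :=
        mul_le_mul_of_nonneg_right (le_max_left _ _) (by positivity)
      _ = max C₀ 1 * (2 * C' / ε) ^ (D / β) * 2 ^ (c / 2 * √(n : ℝ)) := by ring
      _ ≤ 2 ^ (c / 2 * √(n : ℝ)) * 2 ^ (c / 2 * √(n : ℝ)) :=
        mul_le_mul_of_nonneg_right hbig h8.le
      _ = 2 ^ (c * √(n : ℝ)) := by
        rw [← Real.rpow_add (by norm_num)]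
        congr 1
        ring

end Pool.Agent.PrimeComplexity
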