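import Mathlib
import Pool.Agent.Lib_MP_ff27c1_cb.Ext

/-!
# Skew products of the torus with a cocycle of modulus `o(1 / log)`
-/

open Finset Filter Topology

namespace Pool.Agent.PrimeComplexity

lemma grid (M : ℕ) (hM : 0 < M) (u : AddCircle (1 : ℝ)) :
    ∃ i < M, dist u (((i : ℝ) / M : ℝ) : AddCircle (1 : ℝ)) ≤ 1 / M := by
  have hM' : (0 : ℝ) < M := by exact_mod_cast hM
  obtain ⟨t, ht, rfl⟩ : ∃ t ∈ Set.Ico (0 : ℝ) (0 + 1), (t : AddCircle (1 : ℝ)) = u := by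
    have : Fact ((0 : ℝ) < 1) := ⟨one_pos⟩
    exact ⟨(AddCircle.equivIco 1 0 u : ℝ), (AddCircle.equivIco 1 0 u).2,
      AddCircle.coe_equivIco⟩
  rw [zero_add] at ht
  have h0 : 0 ≤ t * M := mul_nonneg ht.1 hM'.le
  refine ⟨⌊t * M⌋₊, ?_, ?_⟩
  · rw [Nat.floor_lt h0]
    nlinarith [ht.2]
  · rw [dist_eq_norm, ← AddCircle.coe_sub]
    refine (QuotientAddGroup.norm_mk_le_norm (S := AddSubgroup.zmultiples (1 : ℝ))
      (m := t - (⌊t * M⌋₊ : ℝ) / M)).trans ?_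
    rw [Real.norm_eq_abs, abs_le]
    have h1 := Nat.floor_le h0
    have h2 := Nat.lt_floor_add_one (t * M)
    have h3 : t - (⌊t * M⌋₊ : ℝ) / M = (t * M - ⌊t * M⌋₊) / M := by
      field_simp
    rw [h3]
    constructor
    · have : 0 ≤ (t * M - ⌊t * M⌋₊) / M := div_nonneg (by linarith) hM'.le
      have h4 : (0 : ℝ) < 1 / M := by positivity
      linarith
    · gcongr
      linarith

lemma finiteBoxDim_circle : FiniteBoxDim (AddCircle (1 : ℝ)) := by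
  classical
  refine ⟨2, 1, one_pos, fun ρ hρ hρ1 => ?_⟩
  have h1 : 1 ≤ 1 / ρ := by rwa [le_div_iff₀ hρ, one_mul]
  have hM : 0 < ⌈1 / ρ⌉₊ := Nat.ceil_pos.2 (by linarith)
  refine ⟨(Finset.range ⌈1 / ρ⌉₊).image (fun i : ℕ =>
    (((i : ℝ) / (⌈1 / ρ⌉₊ : ℕ) : ℝ) : AddCircle (1 : ℝ))), fun y => ?_, ?_⟩
  · obtain ⟨i, hi, hd⟩ := grid _ hM y
    refine ⟨_, Finset.mem_image_of_mem _ (Finset.mem_range.2 hi), hd.trans ?_⟩
    have h2 := Nat.le_ceil (1 / ρ)
    have h3 : (0 : ℝ) < (⌈1 / ρ⌉₊ : ℕ) := by exact_mod_cast hM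
    rw [div_le_iff₀ h3]
    rw [div_le_iff₀ hρ] at h2
    linarith
  · have h2 : (((Finset.range ⌈1 / ρ⌉₊).image (fun i : ℕ =>
        (((i : ℝ) / (⌈1 / ρ⌉₊ : ℕ) : ℝ) : AddCircle (1 : ℝ)))).card : ℝ) ≤ (⌈1 / ρ⌉₊ : ℕ) := by
      have := Finset.card_image_le (s := Finset.range ⌈1 / ρ⌉₊) (f := fun i : ℕ =>
        (((i : ℝ) / (⌈1 / ρ⌉₊ : ℕ) : ℝ) : AddCircle (1 : ℝ)))
      rw [Finset.card_range] at this
      exact_mod_cast this
    refine h2.trans ((Nat.ceil_lt_add_one (by positivity)).le.trans ?_)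
    rw [Real.rpow_neg_one, ← one_div]
    linarith

lemma slowGrowth_rotation (α : AddCircle (1 : ℝ)) :
    SlowGrowth (fun u : AddCircle (1 : ℝ) => u + α) := by
  refine ⟨1, one_pos, fun c hc => ⟨1, fun n y z => ?_⟩⟩
  have h1 : dist ((fun u : AddCircle (1 : ℝ) => u + α)^[n] y)
      ((fun u : AddCircle (1 : ℝ) => u + α)^[n] z) = dist y z := by
    induction n with
    | zero => rfl
    | succ n ih =>
      rw [Function.iterate_succ_apply', Function.iterate_succ_apply', dist_add_right, ih]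
  rw [h1, Real.rpow_one, one_mul]
  have h2 : (1 : ℝ) ≤ 2 ^ (c * √(n : ℝ)) := Real.one_le_rpow (by norm_num) (by positivity)
  exact le_mul_of_one_le_left dist_nonneg h2

theorem low_torus (α : AddCircle (1 : ℝ)) (h : AddCircle (1 : ℝ) → AddCircle (1 : ℝ))
    (hh : LogModulus fun u v : AddCircle (1 : ℝ) => v + h u)
    (w : AddCircle (1 : ℝ) × AddCircle (1 : ℝ)) :
    LowComplexity (fibreExt (fun u => u + α) fun u v => v + h u) w := by
  have : Fact ((0 : ℝ) < 1) := ⟨one_pos⟩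
  refine low_ext finiteBoxDim_circle (slowGrowth_rotation α) (fun z y y' => ?_) hh w
  rw [dist_add_right]

end Pool.Agent.PrimeComplexity
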