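import Mathlib
import Pool.Agent.Lib_MP_ff27c1_cb.Corr2
import Pool.Agent.Lib_MP_ff27c1_cb.Torus
import Pool.Agent.Lib_MP_ff27c1_cb.Growth

/-!
# The main theorem
-/

open Finset Filter Topology

namespace Pool.Agent.PrimeComplexity

lemma le_nb (j N : ℕ) (hj : 1 ≤ j) :
    ((Nat.log 2 N : ℝ) + 1) / (64 * (j : ℝ) ^ 2) ≤ nb j N := by
  have hj2 : 0 < 64 * j ^ 2 := by positivity
  have h1 := Nat.lt_mul_div_succ (Nat.log 2 N + 1) hj2
  have h2 : ((Nat.log 2 N + 1 : ℕ) : ℝ) ≤ ((64 * j ^ 2 * nb j N : ℕ) : ℝ) := by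
    exact_mod_cast h1.le
  have hj3 : (0 : ℝ) < 64 * (j : ℝ) ^ 2 := by
    have : (0 : ℝ) < j := by exact_mod_cast hj
    positivity
  rw [div_le_iff₀ hj3]
  push_cast at h2
  linarith

/-- The quantitative statement for one sign sequence. -/
lemma inverse {f : ℕ → Bool} {N₂ : ℕ → ℕ} (hf : ∀ j N : ℕ, 1 ≤ j → N₂ j ≤ N → Good j N f)
    {δ : ℝ} (hδ : 0 < δ) (hδ1 : δ ≤ 1) {X : Type} [MetricSpace X] [CompactSpace X] (T : X → X)
    (x : X) {F : X → ℂ} (hF : Continuous F) (hF1 : ∀ y, ‖F y‖ ≤ 1) :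
    ∃ ε : ℝ, 0 < ε ∧ ∃ N₀ : ℕ, ∀ N : ℕ, N₀ ≤ N →
      δ * Nat.primeCounting N ≤
        ‖∑ p ∈ (Finset.range (N + 1)).filter Nat.Prime, ((sg (f p) : ℝ) : ℂ) * F (T^[p] x)‖ →
      ∀ s : Finset X, SpansOrbit T x (Nat.log 2 N ^ 2) ε s →
        (N : ℝ) ^ (δ ^ 2 / 256) ≤ (s.card : ℝ) := by
  obtain ⟨j, hj⟩ : ∃ j : ℕ, j = ⌈1 / δ⌉₊ := ⟨_, rfl⟩
  have hj1 : 1 / δ ≤ j := by rw [hj]; exact Nat.le_ceil _
  have hj2 : (j : ℝ) < 1 / δ + 1 := by rw [hj]; exact Nat.ceil_lt_add_one (by positivity)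
  have hδ' : 1 ≤ 1 / δ := by
    rw [le_div_iff₀ hδ]
    linarith
  have hj0 : (1 : ℝ) ≤ j := hδ'.trans hj1
  have hj0' : 1 ≤ j := by exact_mod_cast hj0
  have hjδ : 1 / (j : ℝ) ≤ δ := by
    rw [div_le_iff₀ (by linarith)]
    rw [div_le_iff₀ hδ] at hj1
    linarith
  have hjδ2 : (j : ℝ) * δ ≤ 2 := by
    have h1 : (j : ℝ) ≤ 2 / δ := by
      have : 2 / δ = 1 / δ + 1 / δ := by ring
      linarith
    rwa [le_div_iff₀ hδ] at h1
  obtain ⟨ε, hε, hεF⟩ := Metric.uniformContinuous_iff.1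
    (CompactSpace.uniformContinuous_of_continuous hF) (1 / (8 * j)) (by positivity)
  refine ⟨ε, hε, max (N₂ j) 2, fun N hN hcorr s hs => ?_⟩
  by_contra hcon
  push Not at hcon
  have hN2 : 2 ≤ N := (le_max_right _ _).trans hN
  have hgood := hf j N hj0' ((le_max_left _ _).trans hN)
  have hcard : s.card ≤ 2 ^ nb j N := by
    have h1 : (N : ℝ) ^ (δ ^ 2 / 256) ≤ (2 : ℝ) ^ (((Nat.log 2 N : ℝ) + 1) * (δ ^ 2 / 256)) := by
      rw [Real.rpow_mul (by norm_num)]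
      refine Real.rpow_le_rpow (Nat.cast_nonneg _) ?_ (by positivity)
      have h2 : N < 2 ^ (Nat.log 2 N + 1) := Nat.lt_pow_succ_log_self (by norm_num) N
      have h3 : (N : ℝ) ≤ (2 : ℝ) ^ (Nat.log 2 N + 1) := by exact_mod_cast h2.le
      rw [← Real.rpow_natCast] at h3
      push_cast at h3
      exact h3
    have h2 : ((Nat.log 2 N : ℝ) + 1) * (δ ^ 2 / 256) ≤ nb j N := by
      refine le_trans ?_ (le_nb j N hj0')
      rw [le_div_iff₀ (by positivity)]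
      have h3 : ((j : ℝ) * δ) ^ 2 ≤ 4 := by
        have : 0 ≤ (j : ℝ) * δ := by positivity
        nlinarith
      have h4 : (0 : ℝ) ≤ (Nat.log 2 N : ℝ) + 1 := by positivity
      calc ((Nat.log 2 N : ℝ) + 1) * (δ ^ 2 / 256) * (64 * (j : ℝ) ^ 2)
          = ((Nat.log 2 N : ℝ) + 1) * (((j : ℝ) * δ) ^ 2 / 4) := by ring
        _ ≤ ((Nat.log 2 N : ℝ) + 1) * 1 := mul_le_mul_of_nonneg_left (by linarith) h4
        _ = _ := mul_one _
    have h3 : (2 : ℝ) ^ (((Nat.log 2 N : ℝ) + 1) * (δ ^ 2 / 256)) ≤ (2 : ℝ) ^ (nb j N : ℝ) :=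
      Real.rpow_le_rpow_of_exponent_le (by norm_num) h2
    rw [Real.rpow_natCast] at h3
    have h4 : (s.card : ℝ) ≤ (2 : ℝ) ^ nb j N := (hcon.trans_le (h1.trans h3)).le
    exact_mod_cast h4
  have h1 := complex_case hj0' hgood hN2 (x := x) hF1
    (fun y z h => by
      rw [← dist_eq_norm]
      exact (hεF h).le) hs hcard
  rw [card_P] at h1
  have h2 : 1 / (j : ℝ) * Nat.primeCounting N ≤ δ * Nat.primeCounting N :=
    mul_le_mul_of_nonneg_right hjδ (Nat.cast_nonneg _)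
  exact absurd (hcorr.trans_lt h1) (not_lt.2 h2)

/-- Orthogonality to systems of small complexity. -/
lemma orthogonal {f : ℕ → Bool} {N₂ : ℕ → ℕ} (hf : ∀ j N : ℕ, 1 ≤ j → N₂ j ≤ N → Good j N f)
    {X : Type} [MetricSpace X] [CompactSpace X] (T : X → X)
    (x : X) {F : X → ℂ} (hF : Continuous F) (hT : LowComplexity T x) :
    Tendsto (fun N : ℕ => (∑ p ∈ (Finset.range (N + 1)).filter Nat.Prime,
      ((sg (f p) : ℝ) : ℂ) * F (T^[p] x)) / (Nat.primeCounting N : ℂ)) atTop (𝓝 0) := by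
  obtain ⟨B, hB⟩ : ∃ B : ℝ, ∀ y, ‖F y‖ ≤ B := by
    obtain ⟨B, hB⟩ := (isCompact_range hF).isBounded.exists_norm_le
    exact ⟨B, fun y => hB _ ⟨y, rfl⟩⟩
  set D : ℝ := max B 1 with hD
  have hD1 : 1 ≤ D := le_max_right _ _
  have hD0 : 0 < D := by linarith
  have hDc : (D : ℂ) ≠ 0 := by exact_mod_cast hD0.ne'
  have hF' : Continuous (fun y => F y / (D : ℂ)) := hF.div_const _
  have hF1 : ∀ y, ‖F y / (D : ℂ)‖ ≤ 1 := by
    intro y
    rw [norm_div, Complex.norm_real, Real.norm_of_nonneg hD0.le, div_le_one hD0]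
    exact (hB y).trans (le_max_left _ _)
  rw [Metric.tendsto_atTop]
  intro η hη
  obtain ⟨δ, hδ⟩ : ∃ δ : ℝ, δ = min 1 (η / (2 * D)) := ⟨_, rfl⟩
  have hδ0 : 0 < δ := by rw [hδ]; exact lt_min one_pos (by positivity)
  have hδ1 : δ ≤ 1 := by rw [hδ]; exact min_le_left _ _
  have hδη : δ ≤ η / (2 * D) := by rw [hδ]; exact min_le_right _ _
  obtain ⟨ε, hε, N₀, hN₀⟩ := inverse hf hδ0 hδ1 T x hF' hF1
  obtain ⟨n₀, hn₀⟩ := hT ε hε (δ ^ 2 / 512) (by positivity)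
  refine ⟨max N₀ (2 ^ (n₀ + 1)), fun N hN => ?_⟩
  have hN1 : 2 ^ (n₀ + 1) ≤ N := (le_max_right _ _).trans hN
  have hNpos : 0 < N := lt_of_lt_of_le (by positivity) hN1
  have hk : n₀ + 1 ≤ Nat.log 2 N := Nat.le_log_of_pow_le (by norm_num) hN1
  have hkk : n₀ ≤ Nat.log 2 N ^ 2 := by nlinarith
  obtain ⟨s, hs, hscard⟩ := hn₀ _ hkk
  have hsq : √((Nat.log 2 N ^ 2 : ℕ) : ℝ) = Nat.log 2 N := by
    push_cast
    exact Real.sqrt_sq (Nat.cast_nonneg _)
  rw [hsq] at hscard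
  have hlt : (s.card : ℝ) < (N : ℝ) ^ (δ ^ 2 / 256) := by
    have h1 : (2 : ℝ) ^ ((Nat.log 2 N : ℝ) * (δ ^ 2 / 256)) ≤ (N : ℝ) ^ (δ ^ 2 / 256) := by
      rw [Real.rpow_mul (by norm_num)]
      refine Real.rpow_le_rpow (by positivity) ?_ (by positivity)
      rw [Real.rpow_natCast]
      exact_mod_cast Nat.pow_log_le_self 2 hNpos.ne'
    refine lt_of_le_of_lt hscard (lt_of_lt_of_le ?_ h1)
    refine Real.rpow_lt_rpow_of_exponent_lt (by norm_num) ?_
    have h2 : (0 : ℝ) < Nat.log 2 N := by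
      have : 0 < Nat.log 2 N := by omega
      exact_mod_cast this
    have h3 : 0 < δ ^ 2 := by positivity
    nlinarith
  have h1 : ‖∑ p ∈ (Finset.range (N + 1)).filter Nat.Prime,
      ((sg (f p) : ℝ) : ℂ) * (F (T^[p] x) / (D : ℂ))‖ < δ * Nat.primeCounting N := by
    by_contra hcon
    push Not at hcon
    exact absurd (hN₀ N ((le_max_left _ _).trans hN) hcon s hs) (not_le.2 hlt)
  have h2 : ∑ p ∈ (Finset.range (N + 1)).filter Nat.Prime,
      ((sg (f p) : ℝ) : ℂ) * (F (T^[p] x) / (D : ℂ)) =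
      (∑ p ∈ (Finset.range (N + 1)).filter Nat.Prime,
        ((sg (f p) : ℝ) : ℂ) * F (T^[p] x)) / (D : ℂ) := by
    rw [Finset.sum_div]
    exact Finset.sum_congr rfl fun p _ => by ring
  rw [h2, norm_div, Complex.norm_real, Real.norm_of_nonneg hD0.le, div_lt_iff₀ hD0] at h1
  have hpi : (0 : ℝ) < Nat.primeCounting N := by
    rw [← card_P]
    have h3 : 2 ≤ N := by
      have : 2 ^ 1 ≤ 2 ^ (n₀ + 1) := Nat.pow_le_pow_right (by norm_num) (by omega)
      omega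
    exact_mod_cast P_pos h3
  rw [dist_zero_right, norm_div, Complex.norm_natCast, div_lt_iff₀ hpi]
  refine h1.trans_le ?_
  have h3 : δ * D ≤ η := by
    have h4 := mul_le_mul_of_nonneg_right hδη hD0.le
    have h5 : η / (2 * D) * D = η / 2 := by
      field_simp
    rw [h5] at h4
    linarith
  calc δ * (Nat.primeCounting N : ℝ) * D = δ * D * Nat.primeCounting N := by ring
    _ ≤ η * Nat.primeCounting N := mul_le_mul_of_nonneg_right h3 hpi.le

/-- A system which realises the signs on the primes has large complexity. -/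
lemma barrier {f : ℕ → Bool} {N₂ : ℕ → ℕ} (hf : ∀ j N : ℕ, 1 ≤ j → N₂ j ≤ N → Good j N f)
    {X : Type} [MetricSpace X] [CompactSpace X] (T : X → X)
    (x : X) {F : X → ℂ} (hF : Continuous F)
    (hFT : ∀ p : ℕ, p.Prime → F (T^[p] x) = ((sg (f p) : ℝ) : ℂ)) :
    ∃ ε : ℝ, 0 < ε ∧ ∃ n₀ : ℕ, ∀ n : ℕ, n₀ ≤ n → ∀ s : Finset X, SpansOrbit T x n ε s →
      (2 : ℝ) ^ (√(n : ℝ) / 64) ≤ (s.card : ℝ) := by
  let G : X → ℝ := fun y => max (-1) (min 1 (F y).re)
  have hG : Continuous G := continuous_const.max (continuous_const.min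
    (Complex.continuous_re.comp hF))
  have hG1 : ∀ y, |G y| ≤ 1 := fun y => abs_le.2 ⟨le_max_left _ _,
    max_le (by norm_num) (min_le_left _ _)⟩
  obtain ⟨ε, hε, hεG⟩ := Metric.uniformContinuous_iff.1
    (CompactSpace.uniformContinuous_of_continuous hG) (1 / (8 * ((1 : ℕ) : ℝ))) (by norm_num)
  refine ⟨ε, hε, (N₂ 1 + 1) ^ 2, fun n hn s hs => ?_⟩
  by_contra hcon
  push Not at hcon
  set k := Nat.sqrt n with hk
  have hk1 : N₂ 1 + 1 ≤ k := by
    rw [hk, Nat.le_sqrt, ← sq]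
    exact hn
  have hkn : k ^ 2 ≤ n := by
    rw [sq]
    exact Nat.sqrt_le n
  have hnk : n < (k + 1) ^ 2 := by
    rw [sq]
    exact Nat.lt_succ_sqrt n
  have hlog : Nat.log 2 (2 ^ k) = k := Nat.log_pow (by norm_num) k
  have hN2 : 2 ≤ 2 ^ k := by
    calc 2 = 2 ^ 1 := rfl
      _ ≤ 2 ^ k := Nat.pow_le_pow_right (by norm_num) (by omega)
  have hNk : N₂ 1 ≤ 2 ^ k := by
    have : k < 2 ^ k := Nat.lt_two_pow_self
    omega
  have hgood := hf 1 (2 ^ k) le_rfl hNk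
  have hs' : SpansOrbit T x (wd (2 ^ k)) ε s := by
    intro m
    obtain ⟨z, hz, h⟩ := hs m
    refine ⟨z, hz, fun i hi => h i (lt_of_lt_of_le hi ?_)⟩
    unfold wd
    rw [hlog]
    exact hkn
  have hcard : s.card ≤ 2 ^ nb 1 (2 ^ k) := by
    have h1 : √(n : ℝ) ≤ k + 1 := by
      rw [Real.sqrt_le_left (by positivity)]
      exact_mod_cast hnk.le
    have h2 := le_nb 1 (2 ^ k) le_rfl
    rw [hlog] at h2
    have h3 : √(n : ℝ) / 64 ≤ nb 1 (2 ^ k) := by
      refine le_trans ?_ h2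
      push_cast
      rw [one_pow, mul_one]
      linarith
    have h4 : (2 : ℝ) ^ (√(n : ℝ) / 64) ≤ (2 : ℝ) ^ (nb 1 (2 ^ k) : ℝ) :=
      Real.rpow_le_rpow_of_exponent_le (by norm_num) h3
    rw [Real.rpow_natCast] at h4
    have h5 : (s.card : ℝ) ≤ (2 : ℝ) ^ nb 1 (2 ^ k) := (hcon.trans_le h4).le
    exact_mod_cast h5
  have h1 := real_case le_rfl hgood hN2 (x := x) hG1
    (fun y z h => by
      rw [← Real.dist_eq]
      exact (hεG h).le) hs' hcard
  have h2 : ∑ p ∈ P (2 ^ k), sg (f p) * G (T^[p] x) = (P (2 ^ k)).card := by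
    rw [Finset.card_eq_sum_ones, Nat.cast_sum]
    refine Finset.sum_congr rfl fun p hp => ?_
    have h3 : G (T^[p] x) = sg (f p) := by
      show max (-1) (min 1 (F (T^[p] x)).re) = sg (f p)
      rw [hFT p (Finset.mem_filter.1 hp).2, Complex.ofReal_re]
      cases f p <;> norm_num [sg]
    rw [h3]
    cases f p <;> norm_num [sg]
  rw [h2] at h1
  have h3 : (0 : ℝ) < (P (2 ^ k)).card := by exact_mod_cast P_pos hN2
  have h4 : 7 / (16 * ((1 : ℕ) : ℝ)) * (P (2 ^ k)).card < (P (2 ^ k)).card := by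
    rw [Nat.cast_one]
    linarith
  linarith

theorem main : ∃ f : ℕ → ℂ, (∀ n, f n = 1 ∨ f n = -1) ∧
    -- (a) one sequence is orthogonal along the primes to all systems of complexity `2^(o(√n))`
    (∀ (X : Type) (_ : MetricSpace X) (_ : CompactSpace X) (T : X → X) (x : X) (F : X → ℂ),
      Continuous F → LowComplexity T x →
      Tendsto (fun N : ℕ => (∑ p ∈ (Finset.range (N + 1)).filter Nat.Prime,
        f p * F (T^[p] x)) / (Nat.primeCounting N : ℂ)) atTop (𝓝 0)) ∧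
    -- (b) in particular when the iterates have Hölder constants `2^(o(√n))`
    (∀ (X : Type) (_ : MetricSpace X) (_ : CompactSpace X) (T : X → X) (x : X) (F : X → ℂ),
      Continuous F → FiniteBoxDim X → SlowGrowth T →
      Tendsto (fun N : ℕ => (∑ p ∈ (Finset.range (N + 1)).filter Nat.Prime,
        f p * F (T^[p] x)) / (Nat.primeCounting N : ℂ)) atTop (𝓝 0)) ∧
    -- (c) and for nonexpansive extensions of modulus `o(1 / log)` of such systems, with any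
    -- compact fibre
    (∀ (Z Y : Type) (_ : MetricSpace Z) (_ : CompactSpace Z) (_ : MetricSpace Y)
      (_ : CompactSpace Y) (S : Z → Z) (h : Z → Y → Y),
      FiniteBoxDim Z → SlowGrowth S → Nonexpansive h → LogModulus h →
      ∀ (w : Z × Y) (F : Z × Y → ℂ), Continuous F →
        Tendsto (fun N : ℕ => (∑ p ∈ (Finset.range (N + 1)).filter Nat.Prime,
          f p * F ((fibreExt S h)^[p] w)) / (Nat.primeCounting N : ℂ)) atTop (𝓝 0)) ∧
    -- (c') for instance for skew products of the torus with a cocycle of modulus `o(1 / log)`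
    (∀ (α : AddCircle (1 : ℝ)) (h : AddCircle (1 : ℝ) → AddCircle (1 : ℝ)),
      LogModulus (fun u v : AddCircle (1 : ℝ) => v + h u) →
      ∀ (w : AddCircle (1 : ℝ) × AddCircle (1 : ℝ))
        (F : AddCircle (1 : ℝ) × AddCircle (1 : ℝ) → ℂ), Continuous F →
        Tendsto (fun N : ℕ => (∑ p ∈ (Finset.range (N + 1)).filter Nat.Prime,
          f p * F ((fibreExt (fun u => u + α) fun u v => v + h u)^[p] w)) /
            (Nat.primeCounting N : ℂ)) atTop (𝓝 0)) ∧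
    -- (d) a correlation at `N` forces large complexity at the length `⌊log₂ N⌋²`
    (∀ δ : ℝ, 0 < δ → δ ≤ 1 → ∀ (X : Type) (_ : MetricSpace X) (_ : CompactSpace X) (T : X → X)
      (x : X) (F : X → ℂ), Continuous F → (∀ y, ‖F y‖ ≤ 1) →
      ∃ ε : ℝ, 0 < ε ∧ ∃ N₀ : ℕ, ∀ N : ℕ, N₀ ≤ N →
        δ * Nat.primeCounting N ≤
          ‖∑ p ∈ (Finset.range (N + 1)).filter Nat.Prime, f p * F (T^[p] x)‖ →
        ∀ s : Finset X, SpansOrbit T x (Nat.log 2 N ^ 2) ε s →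
          (N : ℝ) ^ (δ ^ 2 / 256) ≤ (s.card : ℝ)) ∧
    -- (e) a system which realises `f` on the primes has complexity at least `2^(√n / 64)`
    (∀ (X : Type) (_ : MetricSpace X) (_ : CompactSpace X) (T : X → X) (x : X) (F : X → ℂ),
      Continuous F → (∀ p : ℕ, p.Prime → F (T^[p] x) = f p) →
      ∃ ε : ℝ, 0 < ε ∧ ∃ n₀ : ℕ, ∀ n : ℕ, n₀ ≤ n → ∀ s : Finset X, SpansOrbit T x n ε s →
        (2 : ℝ) ^ (√(n : ℝ) / 64) ≤ (s.card : ℝ)) := by
  obtain ⟨f, N₂, hf⟩ := exists_signs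
  refine ⟨fun p => ((sg (f p) : ℝ) : ℂ), fun n => ?_, ?_, ?_, ?_, ?_, ?_, ?_⟩
  · cases h : f n
    · right
      simp [sg, h]
    · left
      simp [sg, h]
  · intro X _ _ T x F hF hT
    exact orthogonal hf T x hF hT
  · intro X _ _ T x F hF hX hT
    exact orthogonal hf T x hF (low_of_growth hX hT x)
  · intro Z Y _ _ _ _ S h hZ hS hne hmod w F hF
    exact orthogonal hf (fibreExt S h) w hF (low_ext hZ hS hne hmod w)
  · intro α h hh w F hF
    have : Fact ((0 : ℝ) < 1) := ⟨one_pos⟩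
    exact orthogonal hf _ w hF (low_torus α h hh w)
  · intro δ hδ hδ1 X _ _ T x F hF hF1
    exact inverse hf hδ hδ1 T x hF hF1
  · intro X _ _ T x F hF hFT
    exact barrier hf T x hF hFT

end Pool.Agent.PrimeComplexity
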